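import Pool.Agent.Helper85.MU.Defs

/-!
# Finiteness for `ℤ`-motives with maximally unipotent monodromy: exact statements of the modules
Proofs: /team-store/mu_blueprint.md
-/

set_option autoImplicit false

open NumberField

namespace MU

/-- the absolute Galois group of `ℚ`, acting on the algebraic closure of `F` -/
abbrev GalQ (F : Type) [Field F] [NumberField F] : Type :=
  AlgebraicClosure F ≃ₐ[ℚ] AlgebraicClosure F

/-- the ring of all algebraic integers -/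
abbrev Zb (F : Type) [Field F] : Type := integralClosure ℤ (AlgebraicClosure F)

/-! ## A. Galois theory over `ℚ` -/

/-- INR: the inertia groups generate the absolute Galois group of `ℚ` topologically. -/
def ST_INR : Prop :=
  ∀ (F : Type) [Field F] [NumberField F] (N : Subgroup (GalQ F)), N.Normal →
    IsClosed (N : Set (GalQ F)) →
    (∀ p : ℕ, p.Prime → ∀ 𝔓 : Ideal (Zb F), Over p 𝔓 → ∀ σ : GalQ F, CongPow 𝔓 1 σ → σ ∈ N) →
    N = ⊤

/-- FRE: Frobenius elements exist; the Galois group is transitive on the primes over `p`. -/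
def ST_FRE : Prop :=
  ∀ (F : Type) [Field F] [NumberField F] (p : ℕ), p.Prime →
    (∃ 𝔓 : Ideal (Zb F), Over p 𝔓 ∧ ∃ φ : GalQ F, CongPow 𝔓 p φ) ∧
    ∀ 𝔓 𝔔 : Ideal (Zb F), Over p 𝔓 → Over p 𝔔 → ∃ g : GalQ F,
      ∀ x y : Zb F, (y : AlgebraicClosure F) = g (x : AlgebraicClosure F) → (x ∈ 𝔓 ↔ y ∈ 𝔔)

/-- CYC: the value of the cyclotomic character at Frobenius elements (and inertia: `j = 0`). -/
def ST_CYC : Prop :=
  ∀ (F : Type) [Field F] [NumberField F] (k : Type) [Field k] [Algebra k (AlgebraicClosure F)]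
    (l : ℕ) [Fact l.Prime] (p : ℕ), p.Prime → p ≠ l → ∀ 𝔓 : Ideal (Zb F), Over p 𝔓 →
    ∀ (j : ℕ) (σ : AlgebraicClosure F ≃ₐ[k] AlgebraicClosure F), CongPow 𝔓 (p ^ j) σ →
      ((cyc l k σ : ℤ_[l]ˣ) : ℤ_[l]) = (p : ℤ_[l]) ^ j

/-- `H` is the subgroup of the absolute Galois group of `ℚ` which corresponds to `F`. -/
def IsH (F : Type) [Field F] [NumberField F] (H : Subgroup (GalQ F)) (e : Gal F ≃* H) : Prop :=
  (∀ (g : Gal F) (x : AlgebraicClosure F), ((e g : H) : GalQ F) x = g x) ∧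
  IsOpen (H : Set (GalQ F)) ∧ Continuous (fun g : Gal F => ((e g : H) : GalQ F)) ∧
  Continuous (fun g : H => e.symm g) ∧ H.index = Module.finrank ℚ F

/-- IDX: existence of `H`. -/
def ST_IDX : Prop :=
  ∀ (F : Type) [Field F] [NumberField F], ∃ (H : Subgroup (GalQ F)) (e : Gal F ≃* H), IsH F H e

/-- Hypotheses on a character `ε` of `Gal F`: trivial on the inertia groups away from `l`, and equal
to the power `-b`, `b ∈ Bd`, of the character `c` of the cyclotomic character on the inertia groups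
over `l`. -/
def IsEps (F : Type) [Field F] [NumberField F] (l : ℕ) [Fact l.Prime] {A : Type} [CommGroup A]
    [TopologicalSpace A] (ε : Gal F →* A) (c : ℤ_[l]ˣ →* A) (Bd : Set ℤ) : Prop :=
  Continuous ε ∧ Continuous c ∧
  (∀ p : ℕ, p.Prime → p ≠ l → ∀ 𝔓 : Ideal (Zb F), Over p 𝔓 → ∀ σ : Gal F, CongPow 𝔓 1 σ →
    ε σ = 1) ∧
  ∀ 𝔓 : Ideal (Zb F), Over l 𝔓 → ∃ b ∈ Bd, ∀ σ : Gal F, CongPow 𝔓 1 σ →
    ε σ * c (cyc l F σ) ^ b = 1

/-- TRC: the transfer of `ε` is the power `-b` of the cyclotomic character, where `b` is a sum of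
`[F : ℚ]` local exponents. -/
def ST_TRC : Prop :=
  ∀ (F : Type) [Field F] [NumberField F] (H : Subgroup (GalQ F)) (e : Gal F ≃* H), IsH F H e →
    ∀ [H.FiniteIndex] (l : ℕ) [Fact l.Prime] (A : Type) [CommGroup A] [TopologicalSpace A]
      [IsTopologicalGroup A] [T2Space A] (ε : Gal F →* A) (c : ℤ_[l]ˣ →* A) (Bd : Set ℤ),
      IsEps F l ε c Bd → ∃ b : Fin (Module.finrank ℚ F) → ℤ, (∀ i, b i ∈ Bd) ∧
        ∀ φ : GalQ F, (ε.comp e.symm.toMonoidHom).transfer φ * c (cyc l ℚ φ) ^ (∑ i, b i) = 1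

/-- Elements of the Frobenius type at primes over `p`, of total degree `[F : ℚ]`. -/
def TrData (F : Type) [Field F] [NumberField F] (p r : ℕ) (x : Fin r → Gal F) (k : Fin r → ℕ)
    (𝔔 : Fin r → Ideal (Zb F)) : Prop :=
  (∀ i, Over p (𝔔 i) ∧ 1 ≤ k i ∧ CongPow (𝔔 i) (p ^ k i) (x i)) ∧
  ∑ i, k i = Module.finrank ℚ F

/-- TRF: the transfer at a Frobenius element. -/
def ST_TRF : Prop :=
  ∀ (F : Type) [Field F] [NumberField F] (H : Subgroup (GalQ F)) (e : Gal F ≃* H), IsH F H e →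
    ∀ [H.FiniteIndex] (p : ℕ), p.Prime → ∀ 𝔓 : Ideal (Zb F), Over p 𝔓 → ∀ φ : GalQ F,
      CongPow 𝔓 p φ → ∃ (r : ℕ) (x : Fin r → Gal F) (k : Fin r → ℕ) (𝔔 : Fin r → Ideal (Zb F)),
        TrData F p r x k 𝔔 ∧ ∀ (A : Type) [CommGroup A] (ε : Gal F →* A),
          (ε.comp e.symm.toMonoidHom).transfer φ = ∏ i, ε (x i)

/-- The system of Frobenius elements: for the characters `ε` as in `IsEps` the product of the values
at the elements over `p` is the power `-b` of `p`, with `b` independent of `p`. -/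
def IsTri (F : Type) [Field F] [NumberField F] (r : ℕ → ℕ) (x : ∀ p, Fin (r p) → Gal F)
    (k : ∀ p, Fin (r p) → ℕ) (𝔔 : ∀ p, Fin (r p) → Ideal (Zb F)) : Prop :=
  (∀ p : ℕ, p.Prime → TrData F p (r p) (x p) (k p) (𝔔 p)) ∧
  ∀ (l : ℕ) [Fact l.Prime] (A : Type) [CommGroup A] [TopologicalSpace A]
    [IsTopologicalGroup A] [T2Space A] (ε : Gal F →* A) (c : ℤ_[l]ˣ →* A) (Bd : Set ℤ),
    IsEps F l ε c Bd → ∃ b : Fin (Module.finrank ℚ F) → ℤ, (∀ i, b i ∈ Bd) ∧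
      ∀ p : ℕ, p.Prime → p ≠ l → ∀ u : ℤ_[l]ˣ, (u : ℤ_[l]) = p →
        (∏ i, ε (x p i)) * c u ^ (∑ i, b i) = 1

/-- TRI: the system of Frobenius elements exists (from IDX, TRC, TRF, FRE, CYC). -/
def ST_TRI : Prop :=
  ∀ (F : Type) [Field F] [NumberField F], ∃ (r : ℕ → ℕ) (x : ∀ p, Fin (r p) → Gal F)
    (k : ∀ p, Fin (r p) → ℕ) (𝔔 : ∀ p, Fin (r p) → Ideal (Zb F)), IsTri F r x k 𝔔

/-! ## B. Irreducibility -/

/-- irreducible representations -/
def IsIrr {G K : Type} [Group G] [Field K] {n : ℕ} (r : G →* Matrix (Fin n) (Fin n) K) : Prop :=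
  ∀ (m : ℕ) (B : Matrix (Fin n) (Fin m) K) (A : G → Matrix (Fin m) (Fin m) K),
    IsSub r B A → m = 0 ∨ m = n

/-- LIN: the determinant on the stable subspaces of a regular unipotent matrix. -/
def ST_LIN : Prop :=
  ∀ (K : Type) [Field K] (n m Q : ℕ), (Q : K) ≠ 0 → ∀ (t X : Matrix (Fin n) (Fin n) K)
    (B : Matrix (Fin n) (Fin m) K) (C : Matrix (Fin m) (Fin n) K)
    (s a : Matrix (Fin m) (Fin m) K), X * t = t ^ Q * X → (t - 1) ^ n = 0 →
    (t - 1) ^ (n - 1) ≠ 0 → C * B = 1 → t * B = B * s → X * B = B * a →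
    a.det ^ (2 * n) = X.det ^ (2 * m) * (Q : K) ^ (m * n * (n - m))

/-- PRO: products of constant coefficients of factors. -/
def ST_PRO : Prop :=
  ∀ (r m N₁ N₂ : ℕ) (R : Fin r → ℝ) (P : Fin r → Polynomial ℤ), (∀ i, (P i).Monic) →
    (∀ i (z : ℂ), ((P i).map (Int.castRingHom ℂ)).IsRoot z → ‖z‖ ^ 2 = R i) →
    (N₁ : ℝ) ^ 2 * ∏ i, R i ^ m ≠ (N₂ : ℝ) ^ 2 →
    ∃ D : ℤ, D ≠ 0 ∧ ∀ (K : Type) [Field K] (Q : Fin r → Polynomial K),
      (∀ i, (Q i).Monic ∧ (Q i).natDegree = m ∧ Q i ∣ (P i).map (Int.castRingHom K)) →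
      (N₁ : K) * ∏ i, ((-1) ^ m * (Q i).coeff 0) = N₂ → (D : K) = 0

/-- BAL: the balance of determinants. -/
def ST_BAL : Prop :=
  ∀ (F : Type) [Field F] [NumberField F] (r : ℕ → ℕ) (x : ∀ p, Fin (r p) → Gal F)
    (k : ∀ p, Fin (r p) → ℕ) (𝔔 : ∀ p, Fin (r p) → Ideal (Zb F)), IsTri F r x k 𝔔 →
    ∀ (S : Finset ℕ), (∀ p ∈ S, p.Prime) → ∀ (n w : ℕ) (h : Fin n → ℕ) (M : Mot F S n w h),
      (∀ (l : ℕ) [Fact l.Prime] (m : ℕ) (B : Matrix (Fin n) (Fin m) ℚ_[l])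
        (A : Gal F → Matrix (Fin m) (Fin m) ℚ_[l]), IsSub (rat (M.ρ l)) B A →
        (∃ J : Fin (Module.finrank ℚ F) → Finset (Fin n), (∀ i, (J i).card = m) ∧
          2 * ∑ i, ∑ j ∈ J i, h j = Module.finrank ℚ F * m * w ∧
          ∀ p : ℕ, p.Prime → p ≠ l →
            (∏ i, (A (x p i)).det) * (p : ℚ_[l]) ^ (∑ i, ∑ j ∈ J i, h j) = 1) ∧
        ∀ e : ℤ, (∀ 𝔓 : Ideal (Zb F), Over l 𝔓 → ∀ σ : Gal F, CongPow 𝔓 1 σ →
            (A σ).det ^ 2 * (((cyc l F σ : ℤ_[l]ˣ) : ℤ_[l]) : ℚ_[l]) ^ e = 1) →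
          Module.finrank ℚ F * e = Module.finrank ℚ F * (m * w)) ∧
      ∃ c : ℕ, ∀ (l : ℕ) [Fact l.Prime], c < l → ∀ (m : ℕ) (B : Matrix (Fin n) (Fin m) (ZMod l))
        (A : Gal F → Matrix (Fin m) (Fin m) (ZMod l)), IsSub (res (M.ρ l)) B A →
        ∃ J : Fin (Module.finrank ℚ F) → Finset (Fin n), (∀ i, (J i).card = m) ∧
          2 * ∑ i, ∑ j ∈ J i, h j = Module.finrank ℚ F * m * w ∧
          ∀ p : ℕ, p.Prime → p ≠ l →
            (∏ i, (A (x p i)).det) * (p : ZMod l) ^ (∑ i, ∑ j ∈ J i, h j) = 1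

/-- IRR: irreducibility of the rational representations and of almost all residual ones. -/
def ST_IRR : Prop :=
  ∀ (F : Type) [Field F] [NumberField F] (S : Finset ℕ), (∀ p ∈ S, p.Prime) →
    ∀ (n w : ℕ) (h : Fin n → ℕ) (M : Mot F S n w h), M.Ample →
      (∀ (l : ℕ) [Fact l.Prime], IsIrr (rat (M.ρ l))) ∧
      ∃ c : ℕ, ∀ (l : ℕ) [Fact l.Prime], c < l → IsIrr (res (M.ρ l))

/-! ## C. Faltings' finiteness argument -/

/-- FRB: every coset of an open normal subgroup contains a power of a Frobenius element. -/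
def ST_FRB : Prop :=
  ∀ (F : Type) [Field F] [NumberField F] (Y : Subgroup (Gal F)), Y.Normal →
    IsOpen (Y : Set (Gal F)) → ∀ (S : Finset ℕ) (g : Gal F),
      ∃ (p : ℕ) (𝔓 : Ideal (Zb F)) (k : ℕ) (σ : Gal F), p.Prime ∧ p ∉ S ∧ Over p 𝔓 ∧ 1 ≤ k ∧
        CongPow 𝔓 (p ^ k) σ ∧ g⁻¹ * σ ∈ Y

/-- HER: the theorem of Hermite. -/
def ST_HER : Prop :=
  ∀ (F : Type) [Field F] [NumberField F] (S : Finset ℕ), (∀ p ∈ S, p.Prime) → ∀ D : ℕ,
    ∃ Y₀ : Subgroup (Gal F), Y₀.Normal ∧ IsOpen (Y₀ : Set (Gal F)) ∧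
      ∀ Y : Subgroup (Gal F), Y.Normal → IsClosed (Y : Set (Gal F)) → Y.index ≠ 0 →
        Y.index ≤ D →
        (∀ p : ℕ, p.Prime → p ∉ S → ∀ 𝔓 : Ideal (Zb F), Over p 𝔓 → ∀ σ : Gal F,
          CongPow 𝔓 1 σ → σ ∈ Y) → Y₀ ≤ Y

/-- FAL: finitely many trace functions for `l = 2` (from FRB, HER). -/
def ST_FAL : Prop :=
  ∀ (F : Type) [Field F] [NumberField F] (S : Finset ℕ), (∀ p ∈ S, p.Prime) →
    ∀ (n w : ℕ) (h : Fin n → ℕ), ∃ (κ : Type) (_ : Finite κ) (col : Mot F S n w h → κ),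
      ∀ M M' : Mot F S n w h, col M = col M' →
        ∀ g : Gal F, (rat (M.ρ 2) g).trace = (rat (M'.ρ 2) g).trace

/-- TRQ: equality of traces for `l = 2` implies equality for all `l` (from FRB). -/
def ST_TRQ : Prop :=
  ∀ (F : Type) [Field F] [NumberField F] (S : Finset ℕ), (∀ p ∈ S, p.Prime) →
    ∀ (n w : ℕ) (h : Fin n → ℕ) (M M' : Mot F S n w h),
      (∀ g : Gal F, (rat (M.ρ 2) g).trace = (rat (M'.ρ 2) g).trace) →
      ∀ (l : ℕ) [Fact l.Prime] (g : Gal F), (rat (M.ρ l) g).trace = (rat (M'.ρ l) g).trace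

/-- BNS: a representation with the trace of an irreducible one is isomorphic to it. -/
def ST_BNS : Prop :=
  ∀ (G K : Type) [Group G] [Field K] [CharZero K] (n : ℕ) (r s : G →* Matrix (Fin n) (Fin n) K),
    IsIrr r → (∀ g, (r g).trace = (s g).trace) →
    ∃ u : Matrix.GeneralLinearGroup (Fin n) K, ∀ g, (u : Matrix (Fin n) (Fin n) K) * r g = s g * u

/-! ## D. Lattices -/

/-- isomorphic over `ℤ_l` -/
def EqvZ {G : Type} [Group G] {n l : ℕ} [Fact l.Prime]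
    (r s : G →* Matrix.GeneralLinearGroup (Fin n) ℤ_[l]) : Prop :=
  ∃ u : Matrix.GeneralLinearGroup (Fin n) ℤ_[l], ∀ g, u * r g = s g * u

/-- isomorphic over `ℚ_l` -/
def EqvQ {G : Type} [Group G] {n l : ℕ} [Fact l.Prime]
    (r s : G →* Matrix.GeneralLinearGroup (Fin n) ℤ_[l]) : Prop :=
  ∃ u : Matrix.GeneralLinearGroup (Fin n) ℚ_[l],
    ∀ g, (u : Matrix (Fin n) (Fin n) ℚ_[l]) * rat r g = rat s g * u

/-- LAT: finitely many classes of lattices in an irreducible representation. -/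
def ST_LAT : Prop :=
  ∀ (G : Type) [Group G] (n l : ℕ) [Fact l.Prime]
    (r : G →* Matrix.GeneralLinearGroup (Fin n) ℤ_[l]), IsIrr (rat r) →
    ∃ T : Set (G →* Matrix.GeneralLinearGroup (Fin n) ℤ_[l]), T.Finite ∧
      ∀ s, EqvQ r s → ∃ t ∈ T, EqvZ s t

/-- LARGE: one class of lattices if the residual representation is irreducible. -/
def ST_LARGE : Prop :=
  ∀ (G : Type) [Group G] (n l : ℕ) [Fact l.Prime]
    (r s : G →* Matrix.GeneralLinearGroup (Fin n) ℤ_[l]), IsIrr (res r) → EqvQ r s → EqvZ r s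

/-- INV: an involution in the absolute Galois group of a field of odd degree. -/
def ST_INV : Prop :=
  ∀ (F : Type) [Field F] [NumberField F], Odd (Module.finrank ℚ F) →
    ∃ c : Gal F, c ≠ 1 ∧ c * c = 1

/-- END: the endomorphisms of the rational representations are scalars (from IRR, INV). -/
def ST_END : Prop :=
  ∀ (F : Type) [Field F] [NumberField F] (S : Finset ℕ), (∀ p ∈ S, p.Prime) →
    ∀ (n w : ℕ) (h : Fin n → ℕ) (M : Mot F S n w h), M.Ample →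
      ∀ (l : ℕ) [Fact l.Prime] (u : Matrix (Fin n) (Fin n) ℚ_[l]),
        (∀ g, rat (M.ρ l) g * u = u * rat (M.ρ l) g) → ∃ a : ℚ_[l], u = a • 1

/-- ADE: finitely many adelic realizations (from FAL, TRQ, BNS, IRR, LAT, LARGE). -/
def ST_ADE : Prop :=
  ∀ (F : Type) [Field F] [NumberField F] (S : Finset ℕ), (∀ p ∈ S, p.Prime) →
    ∀ (n w : ℕ) (h : Fin n → ℕ), ∃ (κ : Type) (_ : Finite κ) (col : Mot F S n w h → κ),
      ∀ M M' : Mot F S n w h, M.Ample → M'.Ample → col M = col M' → M.AdelicIso M'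

/-- ISO: isogenous motives with isomorphic adelic realizations are isomorphic (from END). -/
def ST_ISO : Prop :=
  ∀ (F : Type) [Field F] [NumberField F] (S : Finset ℕ), (∀ p ∈ S, p.Prime) →
    ∀ (n w : ℕ) (h : Fin n → ℕ) (M M' : Mot F S n w h), M.Ample →
      M.AdelicIso M' → M.Isog M' → M.Iso M'

/-- FIN: the theorem (from ADE, ISO). -/
def ST_FIN : Prop :=
  ∀ (F : Type) [Field F] [NumberField F] (S : Finset ℕ), (∀ p ∈ S, p.Prime) →
    ∀ (n w : ℕ) (h : Fin n → ℕ), ∃ N : ℕ,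
      (∃ T : Finset (Mot F S n w h), T.card ≤ N ∧ (∀ M ∈ T, M.Ample) ∧
        ∀ M : Mot F S n w h, M.Ample → ∃ M' ∈ T, M.AdelicIso M') ∧
      ∀ 𝒯 : Set (Mot F S n w h), (∀ M ∈ 𝒯, M.Ample) →
        (∀ M ∈ 𝒯, ∀ M' ∈ 𝒯, M.AdelicIso M' → M.Isog M') →
        ∃ T : Finset (Mot F S n w h), (T : Set (Mot F S n w h)) ⊆ 𝒯 ∧ T.card ≤ N ∧
          ∀ M ∈ 𝒯, ∃ M' ∈ T, M.Iso M'

end MU
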