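import Pool.Agent.Helper85.MU.Stmts

/-!
ISO: isogenous motives with isomorphic adelic realizations are isomorphic.
-/

set_option autoImplicit false

open NumberField

namespace MU

lemma rat_apply {G : Type} [Group G] {n l : ℕ} [Fact l.Prime]
    (r : G →* Matrix.GeneralLinearGroup (Fin n) ℤ_[l]) (g : G) :
    rat r g = ((r g : Matrix.GeneralLinearGroup (Fin n) ℤ_[l]) :
      Matrix (Fin n) (Fin n) ℤ_[l]).map (algebraMap ℤ_[l] ℚ_[l]) := rfl

lemma res_apply {G : Type} [Group G] {n l : ℕ} [Fact l.Prime]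
    (r : G →* Matrix.GeneralLinearGroup (Fin n) ℤ_[l]) (g : G) :
    res r g = ((r g : Matrix.GeneralLinearGroup (Fin n) ℤ_[l]) :
      Matrix (Fin n) (Fin n) ℤ_[l]).map (PadicInt.toZMod (p := l)) := rfl

lemma map_padic_injective {n m l : ℕ} [Fact l.Prime] :
    Function.Injective (fun X : Matrix (Fin n) (Fin m) ℤ_[l] =>
      X.map (algebraMap ℤ_[l] ℚ_[l])) :=
  Matrix.map_injective (FaithfulSMul.algebraMap_injective ℤ_[l] ℚ_[l])

/-- a nonzero rational matrix is a rational multiple of a primitive integral matrix -/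
lemma iso_primitive {n : ℕ} (U : Matrix (Fin n) (Fin n) ℚ) (hU : U ≠ 0) :
    ∃ (c : ℚ) (W : Matrix (Fin n) (Fin n) ℤ), c ≠ 0 ∧ U = c • W.map (Int.castRingHom ℚ) ∧
      ∀ l : ℕ, l.Prime → ∃ i j, ¬ (l : ℤ) ∣ W i j := by
  classical
  have hne : (Finset.univ : Finset (Fin n × Fin n)).Nonempty := by
    by_contra h
    apply hU
    ext i j
    exact absurd ⟨(i, j), Finset.mem_univ _⟩ h
  let D : ℕ := ∏ x : Fin n × Fin n, (U x.1 x.2).den
  have hD : (D : ℚ) ≠ 0 := by
    have : D ≠ 0 := Finset.prod_ne_zero_iff.2 fun x _ => (U x.1 x.2).den_nz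
    exact_mod_cast this
  have hint : ∀ x : Fin n × Fin n, ∃ z : ℤ, (z : ℚ) = D * U x.1 x.2 := by
    intro x
    obtain ⟨k, hk⟩ : (U x.1 x.2).den ∣ D := Finset.dvd_prod_of_mem _ (Finset.mem_univ x)
    refine ⟨k * (U x.1 x.2).num, ?_⟩
    have h1 : (D : ℚ) = (U x.1 x.2).den * k := by exact_mod_cast hk
    have h2 : (U x.1 x.2) * (U x.1 x.2).den = (U x.1 x.2).num := Rat.mul_den_eq_num _
    rw [h1]
    push_cast
    rw [← h2]
    ring
  choose z hz using hint
  obtain ⟨g, hg1, hg2⟩ := Finset.extract_gcd z hne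
  set d : ℤ := Finset.univ.gcd z with hd
  have hd0 : d ≠ 0 := by
    intro h0
    apply hU
    ext i j
    have h1 := hg1 (i, j) (Finset.mem_univ _)
    rw [h0, zero_mul] at h1
    have h2 := hz (i, j)
    rw [h1, Int.cast_zero] at h2
    exact (mul_eq_zero.1 h2.symm).resolve_left hD
  refine ⟨d / D, Matrix.of fun i j => g (i, j), ?_, ?_, ?_⟩
  · exact div_ne_zero (by exact_mod_cast hd0) hD
  · ext i j
    have h1 := hg1 (i, j) (Finset.mem_univ _)
    have h2 := hz (i, j)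
    rw [h1] at h2
    push_cast at h2
    have h3 : U i j = (d : ℚ) * g (i, j) / D := by
      rw [h2]
      field_simp
    rw [h3]
    simp only [Matrix.smul_apply, Matrix.map_apply, Matrix.of_apply, smul_eq_mul,
      Int.coe_castRingHom]
    ring
  · intro l hl
    by_contra hcon
    push Not at hcon
    have h1 : (l : ℤ) ∣ Finset.univ.gcd g := Finset.dvd_gcd fun x _ => hcon x.1 x.2
    rw [hg2] at h1
    have h2 : IsUnit (l : ℤ) := isUnit_of_dvd_one h1
    rw [Int.isUnit_iff] at h2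
    have := hl.one_lt
    omega

/-- the version for one pair of motives -/
theorem iso_of_end {F : Type} [Field F] [NumberField F] {S : Finset ℕ} {n w : ℕ} {h : Fin n → ℕ}
    (M M' : Mot F S n w h)
    (hEND : ∀ (l : ℕ) [Fact l.Prime] (u : Matrix (Fin n) (Fin n) ℚ_[l]),
      (∀ g, rat (M.ρ l) g * u = u * rat (M.ρ l) g) → ∃ a : ℚ_[l], u = a • 1)
    (hA : M.AdelicIso M') (hI : M.Isog M') : M.Iso M' := by
  classical
  obtain ⟨u, hu⟩ := hI
  rcases Nat.eq_zero_or_pos n with hn | hn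
  · subst hn
    exact ⟨1, fun l _ g => by ext i; exact i.elim0⟩
  have hu0 : (u : Matrix (Fin n) (Fin n) ℚ) ≠ 0 := by
    intro h0
    have h1 := u.isUnit
    rw [h0] at h1
    have : Nonempty (Fin n) := ⟨⟨0, hn⟩⟩
    exact not_isUnit_zero h1
  obtain ⟨c, W, hc, hW, hWl⟩ := iso_primitive _ hu0
  have hcomp : ∀ (l : ℕ) [Fact l.Prime], (u : Matrix (Fin n) (Fin n) ℚ).map (algebraMap ℚ ℚ_[l]) =
      (c : ℚ_[l]) • (W.map (algebraMap ℤ ℤ_[l])).map (algebraMap ℤ_[l] ℚ_[l]) := by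
    intro l _
    rw [hW]
    ext i j
    simp
  have hcl : ∀ (l : ℕ) [Fact l.Prime], (c : ℚ_[l]) ≠ 0 := by
    intro l _
    exact_mod_cast hc
  -- intertwining property of W
  have hWint : ∀ (l : ℕ) [Fact l.Prime] (g : Gal F),
      W.map (algebraMap ℤ ℤ_[l]) * (M.ρ l g : Matrix (Fin n) (Fin n) ℤ_[l]) =
      (M'.ρ l g : Matrix (Fin n) (Fin n) ℤ_[l]) * W.map (algebraMap ℤ ℤ_[l]) := by
    intro l _ g
    apply map_padic_injective
    have h1 := hu l g
    rw [hcomp l, Matrix.smul_mul, Matrix.mul_smul] at h1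
    have h2 := smul_right_injective _ (hcl l) h1
    simp only [Matrix.map_mul]
    exact h2
  -- the determinant of W is a unit
  have hdet : ∀ l : ℕ, l.Prime → ¬ (l : ℤ) ∣ W.det := by
    intro l hl
    have : Fact l.Prime := ⟨hl⟩
    obtain ⟨x, hx⟩ := hA l
    -- x⁻¹ W commutes with the representation
    have hcomm : ∀ g, rat (M.ρ l) g * (((x⁻¹ : Matrix.GeneralLinearGroup (Fin n) ℤ_[l]) :
        Matrix (Fin n) (Fin n) ℤ_[l]) * W.map (algebraMap ℤ ℤ_[l])).map (algebraMap ℤ_[l] ℚ_[l]) =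
        (((x⁻¹ : Matrix.GeneralLinearGroup (Fin n) ℤ_[l]) :
        Matrix (Fin n) (Fin n) ℤ_[l]) * W.map (algebraMap ℤ ℤ_[l])).map (algebraMap ℤ_[l] ℚ_[l]) *
        rat (M.ρ l) g := by
      intro g
      rw [rat_apply, ← Matrix.map_mul, ← Matrix.map_mul]
      congr 1
      have h1 : M.ρ l g * x⁻¹ = x⁻¹ * M'.ρ l g := by
        rw [mul_inv_eq_iff_eq_mul, mul_assoc, ← hx g]
        group
      have h2 : (M.ρ l g : Matrix (Fin n) (Fin n) ℤ_[l]) *
          ((x⁻¹ : Matrix.GeneralLinearGroup (Fin n) ℤ_[l]) : Matrix (Fin n) (Fin n) ℤ_[l]) =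
          ((x⁻¹ : Matrix.GeneralLinearGroup (Fin n) ℤ_[l]) : Matrix (Fin n) (Fin n) ℤ_[l]) *
          (M'.ρ l g : Matrix (Fin n) (Fin n) ℤ_[l]) := by
        rw [← Units.val_mul, ← Units.val_mul, h1]
      rw [← Matrix.mul_assoc, h2, Matrix.mul_assoc, ← hWint l g, Matrix.mul_assoc]
    obtain ⟨a, ha⟩ := hEND l _ hcomm
    -- a is an l-adic integer
    set Y : Matrix (Fin n) (Fin n) ℤ_[l] :=
      ((x⁻¹ : Matrix.GeneralLinearGroup (Fin n) ℤ_[l]) : Matrix (Fin n) (Fin n) ℤ_[l]) *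
        W.map (algebraMap ℤ ℤ_[l]) with hY
    have hYd : ∀ i j, algebraMap ℤ_[l] ℚ_[l] (Y i j) = (a • (1 : Matrix (Fin n) (Fin n) ℚ_[l])) i j := by
      intro i j
      rw [← ha]
      rfl
    set t : ℤ_[l] := Y ⟨0, hn⟩ ⟨0, hn⟩ with ht
    have hta : algebraMap ℤ_[l] ℚ_[l] t = a := by
      rw [ht, hYd]
      simp
    have hYt : Y = t • (1 : Matrix (Fin n) (Fin n) ℤ_[l]) := by
      apply map_padic_injective
      change Y.map _ = (t • (1 : Matrix (Fin n) (Fin n) ℤ_[l])).map _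
      ext i j
      rw [Matrix.map_apply, hYd, Matrix.map_apply, Matrix.smul_apply, Matrix.smul_apply,
        smul_eq_mul, smul_eq_mul, map_mul, hta, Matrix.one_apply, Matrix.one_apply]
      split_ifs <;> simp
    have hWx : W.map (algebraMap ℤ ℤ_[l]) = t • (x : Matrix (Fin n) (Fin n) ℤ_[l]) := by
      have h1 : (x : Matrix (Fin n) (Fin n) ℤ_[l]) * Y = W.map (algebraMap ℤ ℤ_[l]) := by
        rw [hY, ← Matrix.mul_assoc, ← Units.val_mul, mul_inv_cancel, Units.val_one, Matrix.one_mul]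
      rw [← h1, hYt, Matrix.mul_smul, Matrix.mul_one]
    have htu : ¬ (l : ℤ_[l]) ∣ t := by
      intro hlt
      obtain ⟨i, j, hij⟩ := hWl l hl
      apply hij
      have h1 : (l : ℤ_[l]) ∣ ((W i j : ℤ) : ℤ_[l]) := by
        have h2 : ((W i j : ℤ) : ℤ_[l]) = t * (x : Matrix (Fin n) (Fin n) ℤ_[l]) i j := by
          have h3 := congrFun (congrFun hWx i) j
          simpa using h3
        rw [h2]
        exact hlt.mul_right _
      have h4 := (PadicInt.norm_int_lt_one_iff_dvd (p := l) (W i j)).1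
      apply h4
      obtain ⟨y, hy⟩ := h1
      rw [hy, norm_mul]
      calc ‖(l : ℤ_[l])‖ * ‖y‖ ≤ ‖(l : ℤ_[l])‖ * 1 :=
            mul_le_mul_of_nonneg_left (PadicInt.norm_le_one y) (norm_nonneg _)
        _ < 1 := by
          rw [mul_one, PadicInt.norm_p]
          exact inv_lt_one_of_one_lt₀ (by exact_mod_cast hl.one_lt)
    have htunit : IsUnit t := by
      rw [PadicInt.isUnit_iff]
      by_contra h1
      apply htu
      have h2 : ‖t‖ < 1 := lt_of_le_of_ne (PadicInt.norm_le_one t) h1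
      have h3 := (PadicInt.norm_lt_one_iff_dvd t).1 h2
      exact h3
    have hdetunit : IsUnit ((W.det : ℤ) : ℤ_[l]) := by
      have h1 : ((W.det : ℤ) : ℤ_[l]) = (W.map (algebraMap ℤ ℤ_[l])).det := by
        have := (RingHom.map_det (algebraMap ℤ ℤ_[l]) W)
        simpa using this
      rw [h1, hWx, Matrix.det_smul]
      exact (htunit.pow _).mul ((Matrix.isUnit_iff_isUnit_det _).1 x.isUnit)
    intro hdvd
    have h1 := (PadicInt.norm_int_lt_one_iff_dvd (p := l) W.det).2 hdvd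
    rw [PadicInt.isUnit_iff] at hdetunit
    rw [hdetunit] at h1
    exact lt_irrefl _ h1
  have hunit : IsUnit W.det := by
    rw [Int.isUnit_iff_natAbs_eq]
    rw [Nat.eq_one_iff_not_exists_prime_dvd]
    intro l hl hdvd
    exact hdet l hl (Int.natCast_dvd.2 hdvd)
  let W' : Matrix.GeneralLinearGroup (Fin n) ℤ := Matrix.GeneralLinearGroup.mk'' W hunit
  exact ⟨W', fun l _ g => hWint l g⟩

theorem st_ISO (hEND : ST_END) : ST_ISO := by
  intro F _ _ S hS n w h M M' hM hA hI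
  exact iso_of_end M M' (fun l _ u hu => hEND F S hS n w h M hM l u hu) hA hI

end MU
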