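import Pool.Agent.Helper85.MU.Stmts

/-!
Lemmas on subrepresentations given by matrices.
-/

set_option autoImplicit false

namespace MU

open Module.Basis in
/-- the characteristic polynomial on a stable subspace divides the characteristic polynomial -/
theorem sub_charpoly_dvd {K : Type} [Field K] {n m : ℕ} {X : Matrix (Fin n) (Fin n) K}
    {B : Matrix (Fin n) (Fin m) K} {C : Matrix (Fin m) (Fin n) K} {a : Matrix (Fin m) (Fin m) K}
    (hCB : C * B = 1) (hXB : X * B = B * a) : a.charpoly ∣ X.charpoly := by
  classical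
  let f : (Fin m → K) →ₗ[K] (Fin n → K) := B.mulVecLin
  have hf : Function.Injective f := by
    intro x y hxy
    have h1 : C.mulVec (B.mulVec x) = C.mulVec (B.mulVec y) := congrArg _ hxy
    rwa [Matrix.mulVec_mulVec, Matrix.mulVec_mulVec, hCB, Matrix.one_mulVec,
      Matrix.one_mulVec] at h1
  let W : Submodule K (Fin n → K) := LinearMap.range f
  let bW : Module.Basis (Fin m) K W := (Pi.basisFun K (Fin m)).map (LinearEquiv.ofInjective f hf)
  have hbW : ∀ k, ((bW k : W) : Fin n → K) = B.mulVec (Pi.single k 1) := by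
    intro k
    simp only [bW, Module.Basis.map_apply, Pi.basisFun_apply]
    rfl
  let e : (Fin n → K) →ₗ[K] (Fin n → K) := X.mulVecLin
  have heB : ∀ x, e (B.mulVec x) = B.mulVec (a.mulVec x) := by
    intro x
    change X.mulVec (B.mulVec x) = _
    rw [Matrix.mulVec_mulVec, Matrix.mulVec_mulVec, hXB]
  have he : W ≤ W.comap e := by
    rintro _ ⟨x, rfl⟩
    exact ⟨a.mulVec x, (heB x).symm⟩
  let bQ := Module.finBasis K ((Fin n → K) ⧸ W)
  let b := sumQuot bW bQ
  have hmat : ∃ (B' : Matrix (Fin m) _ K) (D : Matrix _ _ K),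
      LinearMap.toMatrix b b e = Matrix.fromBlocks a B' 0 D := by
    refine ⟨Matrix.of fun i l ↦ (b.repr (e (b (Sum.inr l)))) (Sum.inl i),
      LinearMap.toMatrix bQ bQ (W.mapQ W e he), ?_⟩
    ext u v
    cases u with
    | inl i =>
      cases v with
      | inl k =>
        have h1 : e (b (Sum.inl k)) = ∑ j, a j k • (b (Sum.inl j)) := by
          simp only [b, sumQuot_inl, hbW]
          rw [heB, Matrix.mulVec_single_one]
          have h2 : (a.col k) = ∑ j, a j k • (Pi.single j (1 : K) : Fin m → K) := by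
            ext j'
            simp [Finset.sum_apply, Pi.single_apply, Matrix.col]
          rw [h2]
          have h3 := map_sum f (fun j => a j k • (Pi.single j (1 : K) : Fin m → K)) Finset.univ
          simp only [map_smul] at h3
          exact h3
        rw [LinearMap.toMatrix_apply, h1, map_sum, Matrix.fromBlocks_apply₁₁]
        simp [Finsupp.single_apply]
      | inr l => simp [LinearMap.toMatrix_apply, Matrix.fromBlocks_apply₁₂]
    | inr j =>
      cases v with
      | inl k =>
        suffices W.mkQ (e (bW k)) = 0 by simp [LinearMap.toMatrix_apply, b, this]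
        rw [← LinearMap.mem_ker, Submodule.ker_mkQ]
        exact he (Submodule.coe_mem (bW k))
      | inr l =>
        simp only [LinearMap.toMatrix_apply, sumQuot_repr_inr,
          Matrix.fromBlocks_apply₂₂, b]
        rw [← sumQuot_inr bW bQ l, W.mapQ_apply]
        simp
  obtain ⟨B', D, hD⟩ := hmat
  have h1 : X.charpoly = (Matrix.fromBlocks a B' 0 D).charpoly := by
    rw [← hD, LinearMap.charpoly_toMatrix]
    exact (Matrix.charpoly_mulVecLin X).symm
  rw [h1, Matrix.charpoly_fromBlocks_zero₂₁]
  exact dvd_mul_right _ _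

section

variable {G K : Type} [Group G] [Field K] {n m : ℕ} {r : G →* Matrix (Fin n) (Fin n) K}
  {B : Matrix (Fin n) (Fin m) K} {A : G → Matrix (Fin m) (Fin m) K}

theorem IsSub.mul (h : IsSub r B A) (g g' : G) : A (g * g') = A g * A g' := by
  obtain ⟨⟨C, hC⟩, hA⟩ := h
  have h1 : B * A (g * g') = B * (A g * A g') := by
    rw [← hA, map_mul, Matrix.mul_assoc, hA g', ← Matrix.mul_assoc, hA g, Matrix.mul_assoc]
  have h2 := congrArg (fun Y => C * Y) h1
  simp only [← Matrix.mul_assoc, hC, Matrix.one_mul] at h2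
  exact h2

theorem IsSub.one (h : IsSub r B A) : A 1 = 1 := by
  obtain ⟨⟨C, hC⟩, hA⟩ := h
  have h1 : B * A 1 = B * (1 : Matrix (Fin m) (Fin m) K) := by
    rw [← hA, map_one, Matrix.one_mul, Matrix.mul_one]
  have h2 := congrArg (fun Y => C * Y) h1
  simp only [← Matrix.mul_assoc, hC, Matrix.one_mul] at h2
  exact h2

theorem IsSub.det_mul_inv (h : IsSub r B A) (g : G) : (A g).det * (A g⁻¹).det = 1 := by
  rw [← Matrix.det_mul, ← h.mul, mul_inv_cancel, h.one, Matrix.det_one]

/-- the whole space -/
theorem IsSub.whole (r : G →* Matrix (Fin n) (Fin n) K) : IsSub r 1 r :=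
  ⟨⟨1, Matrix.mul_one 1⟩, fun g => by rw [Matrix.mul_one, Matrix.one_mul]⟩

theorem IsSub.le (h : IsSub r B A) : m ≤ n := by
  obtain ⟨⟨C, hC⟩, -⟩ := h
  have hf : Function.Injective B.mulVecLin := by
    intro x y hxy
    have h1 : C.mulVec (B.mulVec x) = C.mulVec (B.mulVec y) := congrArg _ hxy
    rwa [Matrix.mulVec_mulVec, Matrix.mulVec_mulVec, hC, Matrix.one_mulVec,
      Matrix.one_mulVec] at h1
  have h1 := LinearMap.finrank_le_finrank_of_injective hf
  simpa using h1

end

end MU
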