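import Pool.Agent.Helper85.MU.Stmts

/-!
ADE: finitely many adelic realizations. FIN: the theorem.
-/

set_option autoImplicit false

open NumberField

namespace MU

lemma EqvZ.symm {G : Type} [Group G] {n l : ℕ} [Fact l.Prime]
    {r s : G →* Matrix.GeneralLinearGroup (Fin n) ℤ_[l]} (h : EqvZ r s) : EqvZ s r := by
  obtain ⟨u, hu⟩ := h
  refine ⟨u⁻¹, fun g => ?_⟩
  have h1 : s g = u * r g * u⁻¹ := by rw [hu g]; group
  rw [h1]
  group

lemma EqvZ.trans {G : Type} [Group G] {n l : ℕ} [Fact l.Prime]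
    {r s t : G →* Matrix.GeneralLinearGroup (Fin n) ℤ_[l]} (h : EqvZ r s) (h' : EqvZ s t) :
    EqvZ r t := by
  obtain ⟨u, hu⟩ := h
  obtain ⟨v, hv⟩ := h'
  refine ⟨v * u, fun g => ?_⟩
  rw [mul_assoc, hu g, ← mul_assoc, hv g, mul_assoc]

/-- the finiteness of the classes of lattices as a coloring -/
lemma ade_color (hLAT : ST_LAT) {G : Type} [Group G] {n l : ℕ} [Fact l.Prime]
    (r : G →* Matrix.GeneralLinearGroup (Fin n) ℤ_[l]) (hr : IsIrr (rat r)) :
    ∃ (m : ℕ) (f : (G →* Matrix.GeneralLinearGroup (Fin n) ℤ_[l]) → ℕ), (∀ s, f s < m) ∧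
      ∀ s s', EqvQ r s → EqvQ r s' → f s = f s' → EqvZ s s' := by
  classical
  obtain ⟨T, hT, hTs⟩ := hLAT G n l r hr
  have : Finite T := hT
  obtain ⟨m, ⟨e⟩⟩ := Finite.exists_equiv_fin T
  let f : (G →* Matrix.GeneralLinearGroup (Fin n) ℤ_[l]) → ℕ := fun s =>
    if h : ∃ t ∈ T, EqvZ s t then (e ⟨h.choose, h.choose_spec.1⟩ : ℕ) else m
  refine ⟨m + 1, f, fun s => ?_, fun s s' hs hs' hff => ?_⟩
  · by_cases h : ∃ t ∈ T, EqvZ s t
    · have : f s = (e ⟨h.choose, h.choose_spec.1⟩ : ℕ) := dif_pos h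
      rw [this]
      have := (e ⟨h.choose, h.choose_spec.1⟩).2
      omega
    · have : f s = m := dif_neg h
      omega
  · have h := hTs s hs
    have h' := hTs s' hs'
    have h1 : f s = (e ⟨h.choose, h.choose_spec.1⟩ : ℕ) := dif_pos h
    have h2 : f s' = (e ⟨h'.choose, h'.choose_spec.1⟩ : ℕ) := dif_pos h'
    rw [h1, h2] at hff
    have h3 := e.injective (Fin.ext hff)
    have h4 : h.choose = h'.choose := congrArg Subtype.val h3
    have h5 := h.choose_spec.2
    have h6 := h'.choose_spec.2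
    rw [← h4] at h6
    exact h5.trans h6.symm

theorem st_ADE (hFAL : ST_FAL) (hTRQ : ST_TRQ) (hBNS : ST_BNS) (hIRR : ST_IRR) (hLAT : ST_LAT)
    (hLARGE : ST_LARGE) : ST_ADE := by
  classical
  intro F _ _ S hS n w h
  obtain ⟨κ, hκ, col, hcol⟩ := hFAL F S hS n w h
  -- representatives
  have hrep : ∀ k : κ, ∃ (c m : ℕ) (f : ∀ (l : ℕ) [Fact l.Prime],
      (Gal F →* Matrix.GeneralLinearGroup (Fin n) ℤ_[l]) → ℕ),
      (∀ (l : ℕ) [Fact l.Prime], l ≤ c → ∀ s, f l s < m) ∧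
      ∀ M M' : Mot F S n w h, M.Ample → M'.Ample → col M = k → col M' = k →
        ∀ (l : ℕ) [Fact l.Prime], (c < l ∨ f l (M.ρ l) = f l (M'.ρ l)) →
          EqvZ (M.ρ l) (M'.ρ l) := by
    intro k
    by_cases hk : ∃ R : Mot F S n w h, R.Ample ∧ col R = k
    · obtain ⟨R, hR, hRk⟩ := hk
      obtain ⟨h1, c, hc⟩ := hIRR F S hS n w h R hR
      have h2 : ∀ (l : ℕ) [Fact l.Prime] (M : Mot F S n w h), col M = k →
          EqvQ (R.ρ l) (M.ρ l) := by
        intro l _ M hM
        have htr := hTRQ F S hS n w h R M (hcol R M (hRk.trans hM.symm)) l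
        exact hBNS (Gal F) ℚ_[l] n (rat (R.ρ l)) (rat (M.ρ l)) (h1 l) htr
      have h3 : ∀ (l : ℕ) (_ : Fact l.Prime), ∃ (m : ℕ)
          (f : (Gal F →* Matrix.GeneralLinearGroup (Fin n) ℤ_[l]) → ℕ), (∀ s, f s < m) ∧
          ∀ s s', EqvQ (R.ρ l) s → EqvQ (R.ρ l) s' → f s = f s' → EqvZ s s' :=
        fun l _ => ade_color hLAT (R.ρ l) (h1 l)
      choose m f hf1 hf2 using h3
      let m' : ℕ → ℕ := fun l => if hl : l.Prime then m l ⟨hl⟩ else 0
      refine ⟨c, (Finset.range (c + 1)).sup m', fun l hl => f l hl, ?_, ?_⟩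
      · intro l hl hlc s
        refine (hf1 l hl s).trans_le ?_
        have h4 : m' l = m l hl := dif_pos hl.out
        rw [← h4]
        exact Finset.le_sup (f := m') (Finset.mem_range.2 (by omega))
      · intro M M' hM hM' hMk hM'k l hl hor
        rcases hor with hcl | hff
        · have h5 := hLARGE (Gal F) n l (R.ρ l) (M.ρ l) (hc l hcl) (h2 l M hMk)
          have h6 := hLARGE (Gal F) n l (R.ρ l) (M'.ρ l) (hc l hcl) (h2 l M' hM'k)
          exact h5.symm.trans h6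
        · exact hf2 l hl _ _ (h2 l M hMk) (h2 l M' hM'k) hff
    · refine ⟨0, 0, fun l _ _ => 0, ?_, ?_⟩
      · intro l hl h0
        have := hl.out.pos
        omega
      · intro M M' hM hM' hMk
        exact absurd ⟨M, hM, hMk⟩ hk
  choose c m f hf1 hf2 using hrep
  have : Fintype κ := Fintype.ofFinite κ
  set C : ℕ := Finset.univ.sup c with hC
  set D : ℕ := Finset.univ.sup m with hD
  have hcC : ∀ k, c k ≤ C := fun k => Finset.le_sup (Finset.mem_univ k)
  have hmD : ∀ k, m k ≤ D := fun k => Finset.le_sup (Finset.mem_univ k)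
  refine ⟨κ × (Fin (C + 1) → Fin (D + 1)), inferInstance, fun M => (col M, fun l =>
    if hl : (l : ℕ).Prime then
      ⟨min D (@f (col M) l ⟨hl⟩ (@Mot.ρ _ _ _ _ _ _ _ M l ⟨hl⟩)), by omega⟩ else 0), ?_⟩
  intro M M' hM hM' hMM' l hl
  have e1 : col M = col M' := congrArg Prod.fst hMM'
  have e2 := congrArg Prod.snd hMM'
  have key : EqvZ (M.ρ l) (M'.ρ l) := by
    refine hf2 (col M) M M' hM hM' rfl e1.symm l ?_
    by_cases hlc : c (col M) < l
    · exact Or.inl hlc
    · right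
      push Not at hlc
      have hlC : l < C + 1 := by have := hcC (col M); omega
      have e3 := congrFun e2 ⟨l, hlC⟩
      simp only [hl.out, dif_pos] at e3
      have e4 := congrArg Fin.val e3
      simp only at e4
      have b1 := (hf1 (col M) l hlc (M.ρ l)).le.trans (hmD _)
      have b2 := (hf1 (col M) l hlc (M'.ρ l)).le.trans (hmD _)
      rw [← e1] at e4
      rw [min_eq_right b1, min_eq_right b2] at e4
      exact e4
  exact key

theorem st_FIN (hADE : ST_ADE) (hISO : ST_ISO) : ST_FIN := by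
  classical
  intro F _ _ S hS n w h
  obtain ⟨κ, hκ, col, hcol⟩ := hADE F S hS n w h
  have : Fintype κ := Fintype.ofFinite κ
  have key : ∀ 𝒯 : Set (Mot F S n w h), (∀ M ∈ 𝒯, M.Ample) →
      ∃ T : Finset (Mot F S n w h), (T : Set (Mot F S n w h)) ⊆ 𝒯 ∧ T.card ≤ Fintype.card κ ∧
        ∀ M ∈ 𝒯, ∃ M' ∈ T, M.AdelicIso M' := by
    intro 𝒯 h𝒯
    let rep : κ → Option (Mot F S n w h) := fun k =>
      if hk : ∃ M ∈ 𝒯, col M = k then some hk.choose else none
    have hrep : ∀ k M, rep k = some M → M ∈ 𝒯 ∧ col M = k := by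
      intro k M hM
      by_cases hk : ∃ M ∈ 𝒯, col M = k
      · have h1 : rep k = some hk.choose := dif_pos hk
        rw [h1] at hM
        rw [← Option.some.inj hM]
        exact hk.choose_spec
      · have h1 : rep k = none := dif_neg hk
        rw [h1] at hM
        exact absurd hM (by simp)
    refine ⟨(Finset.univ.image rep).eraseNone, ?_, ?_, ?_⟩
    · intro M hM
      rw [Finset.mem_coe, Finset.mem_eraseNone, Finset.mem_image] at hM
      obtain ⟨k, -, hk⟩ := hM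
      exact (hrep k M hk).1
    · refine (Finset.card_eraseNone_le _).trans ?_
      exact Finset.card_image_le.trans (by rw [Finset.card_univ])
    · intro M hM
      have hk : ∃ M' ∈ 𝒯, col M' = col M := ⟨M, hM, rfl⟩
      have h1 : rep (col M) = some hk.choose := dif_pos hk
      refine ⟨hk.choose, ?_, ?_⟩
      · rw [Finset.mem_eraseNone, Finset.mem_image]
        exact ⟨col M, Finset.mem_univ _, h1⟩
      · exact hcol M _ (h𝒯 M hM) (h𝒯 _ hk.choose_spec.1) hk.choose_spec.2.symm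
  refine ⟨Fintype.card κ, ?_, ?_⟩
  · obtain ⟨T, h1, h2, h3⟩ := key {M | M.Ample} (fun M hM => hM)
    exact ⟨T, h2, fun M hM => h1 hM, h3⟩
  · intro 𝒯 h𝒯 hI
    obtain ⟨T, h1, h2, h3⟩ := key 𝒯 h𝒯
    refine ⟨T, h1, h2, fun M hM => ?_⟩
    obtain ⟨M', hM', hA⟩ := h3 M hM
    exact ⟨M', hM', hISO F S hS n w h M M' (h𝒯 M hM) hA (hI M hM M' (h1 hM') hA)⟩

end MU
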