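import Pool.Agent.Helper85.MU.Stmts2
import Pool.Agent.Helper85.MU.ADE
import Pool.Agent.Helper85.MU.ISO

/-!
FIN2: finiteness for regular motives.
-/

set_option autoImplicit false

open NumberField

namespace MU

theorem ade_regular (hFAL : ST_FAL) (hTRQ : ST_TRQ) (hBNS : ST_BNS) (hLAT : ST_LAT)
    (hLARGE : ST_LARGE) (F : Type) [Field F] [NumberField F] (S : Finset ℕ)
    (hS : ∀ p ∈ S, p.Prime) (n w : ℕ) (h : Fin n → ℕ) :
    ∃ (κ : Type) (_ : Finite κ) (col : Mot F S n w h → κ),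
      ∀ M M' : Mot F S n w h, M.Regular → M'.Regular → col M = col M' → M.AdelicIso M' := by
  classical
  obtain ⟨κ, hκ, col, hcol⟩ := hFAL F S hS n w h
  -- representatives
  have hrep : ∀ k : κ, ∃ (c m : ℕ) (f : ∀ (l : ℕ) [Fact l.Prime],
      (Gal F →* Matrix.GeneralLinearGroup (Fin n) ℤ_[l]) → ℕ),
      (∀ (l : ℕ) [Fact l.Prime], l ≤ c → ∀ s, f l s < m) ∧
      ∀ M M' : Mot F S n w h, M.Regular → M'.Regular → col M = k → col M' = k →
        ∀ (l : ℕ) [Fact l.Prime], (c < l ∨ f l (M.ρ l) = f l (M'.ρ l)) →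
          EqvZ (M.ρ l) (M'.ρ l) := by
    intro k
    by_cases hk : ∃ R : Mot F S n w h, R.Regular ∧ col R = k
    · obtain ⟨R, hR, hRk⟩ := hk
      obtain ⟨h1', c, hc⟩ := hR
      have h1 : ∀ (l : ℕ) [Fact l.Prime], IsIrr (rat (R.ρ l)) := fun l _ => (h1' l).1
      have h2 : ∀ (l : ℕ) [Fact l.Prime] (M : Mot F S n w h), col M = k →
          EqvQ (R.ρ l) (M.ρ l) := by
        intro l _ M hM
        have htr := hTRQ F S hS n w h R M (hcol R M (hRk.trans hM.symm)) l
        exact hBNS (Gal F) ℚ_[l] n (rat (R.ρ l)) (rat (M.ρ l)) (h1 l) htr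
      have h3 : ∀ (l : ℕ) (_ : Fact l.Prime), ∃ (m : ℕ)
          (f : (Gal F →* Matrix.GeneralLinearGroup (Fin n) ℤ_[l]) → ℕ), (∀ s, f s < m) ∧
          ∀ s s', EqvQ (R.ρ l) s → EqvQ (R.ρ l) s' → f s = f s' → EqvZ s s' :=
        fun l _ => ade_color hLAT (R.ρ l) (h1 l)
      choose m f hf1 hf2 using h3
      let m' : ℕ → ℕ := fun l => if hl : l.Prime then m l ⟨hl⟩ else 0
      refine ⟨c, (Finset.range (c + 1)).sup m', fun l hl => f l hl, ?_, ?_⟩
      · intro l hl hlc s
        refine (hf1 l hl s).trans_le ?_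
        have h4 : m' l = m l hl := dif_pos hl.out
        rw [← h4]
        exact Finset.le_sup (f := m') (Finset.mem_range.2 (by omega))
      · intro M M' hM hM' hMk hM'k l hl hor
        rcases hor with hcl | hff
        · have h5 := hLARGE (Gal F) n l (R.ρ l) (M.ρ l) (hc l hcl) (h2 l M hMk)
          have h6 := hLARGE (Gal F) n l (R.ρ l) (M'.ρ l) (hc l hcl) (h2 l M' hM'k)
          exact h5.symm.trans h6
        · exact hf2 l hl _ _ (h2 l M hMk) (h2 l M' hM'k) hff
    · refine ⟨0, 0, fun l _ _ => 0, ?_, ?_⟩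
      · intro l hl h0
        have := hl.out.pos
        omega
      · intro M M' hM hM' hMk
        exact absurd ⟨M, hM, hMk⟩ hk
  choose c m f hf1 hf2 using hrep
  have : Fintype κ := Fintype.ofFinite κ
  set C : ℕ := Finset.univ.sup c with hC
  set D : ℕ := Finset.univ.sup m with hD
  have hcC : ∀ k, c k ≤ C := fun k => Finset.le_sup (Finset.mem_univ k)
  have hmD : ∀ k, m k ≤ D := fun k => Finset.le_sup (Finset.mem_univ k)
  refine ⟨κ × (Fin (C + 1) → Fin (D + 1)), inferInstance, fun M => (col M, fun l =>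
    if hl : (l : ℕ).Prime then
      ⟨min D (@f (col M) l ⟨hl⟩ (@Mot.ρ _ _ _ _ _ _ _ M l ⟨hl⟩)), by omega⟩ else 0), ?_⟩
  intro M M' hM hM' hMM' l hl
  have e1 : col M = col M' := congrArg Prod.fst hMM'
  have e2 := congrArg Prod.snd hMM'
  have key : EqvZ (M.ρ l) (M'.ρ l) := by
    refine hf2 (col M) M M' hM hM' rfl e1.symm l ?_
    by_cases hlc : c (col M) < l
    · exact Or.inl hlc
    · right
      push Not at hlc
      have hlC : l < C + 1 := by have := hcC (col M); omega
      have e3 := congrFun e2 ⟨l, hlC⟩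
      simp only [hl.out, dif_pos] at e3
      have e4 := congrArg Fin.val e3
      simp only at e4
      have b1 := (hf1 (col M) l hlc (M.ρ l)).le.trans (hmD _)
      have b2 := (hf1 (col M) l hlc (M'.ρ l)).le.trans (hmD _)
      rw [← e1] at e4
      rw [min_eq_right b1, min_eq_right b2] at e4
      exact e4
  exact key


/-- isogenous motives with isomorphic adelic realizations are isomorphic -/
theorem iso_regular {F : Type} [Field F] [NumberField F] {S : Finset ℕ} {n w : ℕ} {h : Fin n → ℕ}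
    (M M' : Mot F S n w h) (hM : M.Regular) (hA : M.AdelicIso M') (hI : M.Isog M') :
    M.Iso M' :=
  iso_of_end M M' (fun l _ => (hM.1 l).2) hA hI

theorem st_FIN2 (hFAL : ST_FAL) (hTRQ : ST_TRQ) (hBNS : ST_BNS) (hLAT : ST_LAT)
    (hLARGE : ST_LARGE) : ST_FIN2 := by
  classical
  intro F _ _ S hS n w h
  obtain ⟨κ, hκ, col, hcol⟩ := ade_regular hFAL hTRQ hBNS hLAT hLARGE F S hS n w h
  have : Fintype κ := Fintype.ofFinite κ
  have key : ∀ 𝒯 : Set (Mot F S n w h), (∀ M ∈ 𝒯, M.Regular) →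
      ∃ T : Finset (Mot F S n w h), (T : Set (Mot F S n w h)) ⊆ 𝒯 ∧ T.card ≤ Fintype.card κ ∧
        ∀ M ∈ 𝒯, ∃ M' ∈ T, M.AdelicIso M' := by
    intro 𝒯 h𝒯
    let rep : κ → Option (Mot F S n w h) := fun k =>
      if hk : ∃ M ∈ 𝒯, col M = k then some hk.choose else none
    have hrep : ∀ k M, rep k = some M → M ∈ 𝒯 ∧ col M = k := by
      intro k M hM
      by_cases hk : ∃ M ∈ 𝒯, col M = k
      · have h1 : rep k = some hk.choose := dif_pos hk
        rw [h1] at hM
        rw [← Option.some.inj hM]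
        exact hk.choose_spec
      · have h1 : rep k = none := dif_neg hk
        rw [h1] at hM
        exact absurd hM (by simp)
    refine ⟨(Finset.univ.image rep).eraseNone, ?_, ?_, ?_⟩
    · intro M hM
      rw [Finset.mem_coe, Finset.mem_eraseNone, Finset.mem_image] at hM
      obtain ⟨k, -, hk⟩ := hM
      exact (hrep k M hk).1
    · refine (Finset.card_eraseNone_le _).trans ?_
      exact Finset.card_image_le.trans (by rw [Finset.card_univ])
    · intro M hM
      have hk : ∃ M' ∈ 𝒯, col M' = col M := ⟨M, hM, rfl⟩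
      have h1 : rep (col M) = some hk.choose := dif_pos hk
      refine ⟨hk.choose, ?_, ?_⟩
      · rw [Finset.mem_eraseNone, Finset.mem_image]
        exact ⟨col M, Finset.mem_univ _, h1⟩
      · exact hcol M _ (h𝒯 M hM) (h𝒯 _ hk.choose_spec.1) hk.choose_spec.2.symm
  refine ⟨Fintype.card κ, key, ?_⟩
  intro 𝒯 h𝒯 hI
  obtain ⟨T, h1, h2, h3⟩ := key 𝒯 h𝒯
  refine ⟨T, h1, h2, fun M hM => ?_⟩
  obtain ⟨M', hM', hA⟩ := h3 M hM
  exact ⟨M', hM', iso_regular M M' (h𝒯 M hM) hA (hI M hM M' (h1 hM') hA)⟩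

end MU
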