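import Pool.Agent.Helper85.MU.Stmts

/-!
TRI: the system of Frobenius elements.
-/

set_option autoImplicit false

open NumberField

namespace MU

theorem st_TRI (hIDX : ST_IDX) (hTRC : ST_TRC) (hTRF : ST_TRF) (hFRE : ST_FRE) (hCYC : ST_CYC) :
    ST_TRI := by
  classical
  intro F _ _
  obtain ⟨H, e, hH⟩ := hIDX F
  have hfin : H.FiniteIndex := by
    refine ⟨?_⟩
    rw [hH.2.2.2.2]
    exact Module.finrank_pos.ne'
  have key : ∀ p : ℕ, ∃ (r : ℕ) (x : Fin r → Gal F) (k : Fin r → ℕ)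
      (𝔔 : Fin r → Ideal (Zb F)) (φ : GalQ F), p.Prime → (TrData F p r x k 𝔔 ∧
        (∀ (l : ℕ) [Fact l.Prime], p ≠ l → ((cyc l ℚ φ : ℤ_[l]ˣ) : ℤ_[l]) = (p : ℤ_[l])) ∧
        ∀ (A : Type) [CommGroup A] (ε : Gal F →* A),
          (ε.comp e.symm.toMonoidHom).transfer φ = ∏ i, ε (x i)) := by
    intro p
    by_cases hp : p.Prime
    · obtain ⟨⟨𝔓, h𝔓, φ, hφ⟩, -⟩ := hFRE F p hp
      obtain ⟨r, x, k, 𝔔, h1, h2⟩ := hTRF F H e hH p hp 𝔓 h𝔓 φ hφ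
      refine ⟨r, x, k, 𝔔, φ, fun _ => ⟨h1, fun l _ hpl => ?_, h2⟩⟩
      have h3 := hCYC F ℚ l p hp hpl 𝔓 h𝔓 1 φ (by rwa [pow_one])
      rwa [pow_one] at h3
    · exact ⟨0, Fin.elim0, Fin.elim0, Fin.elim0, 1, fun h => absurd h hp⟩
  choose r x k 𝔔 φ hkey using key
  refine ⟨r, x, k, 𝔔, fun p hp => (hkey p hp).1, ?_⟩
  intro l _ A _ _ _ _ ε c Bd hε
  obtain ⟨b, hb, hb'⟩ := hTRC F H e hH l A ε c Bd hε
  refine ⟨b, hb, fun p hp hpl u hu => ?_⟩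
  obtain ⟨-, h2, h3⟩ := hkey p hp
  have h4 : cyc l ℚ (φ p) = u := Units.ext (by rw [h2 l hpl, hu])
  rw [← h3 A ε, ← h4]
  exact hb' (φ p)

end MU
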