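import Pool.Agent.Helper85.MU.Stmts2

/-!
TRI2: the system of Frobenius elements. REG: the motives of the theorem are regular.
-/

set_option autoImplicit false

open NumberField

namespace MU

theorem st_TRI2 (hIDX : ST_IDX) (hTRC : ST_TRC) (hTRF : ST_TRF2) (hFRE : ST_FRE)
    (hCYC : ST_CYC) : ST_TRI2 := by
  classical
  intro F _ _
  obtain ⟨H, e, hH⟩ := hIDX F
  have hfin : H.FiniteIndex := by
    refine ⟨?_⟩
    rw [hH.2.2.2.2]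
    exact Module.finrank_pos.ne'
  have key : ∀ p : ℕ, ∃ (r : ℕ) (x : Fin r → Gal F) (k : Fin r → ℕ)
      (𝔔 : Fin r → Ideal (Zb F)) (φ : GalQ F), p.Prime → (TrData F p r x k 𝔔 ∧ Cover F p r 𝔔 ∧
        (∀ (l : ℕ) [Fact l.Prime], p ≠ l → ((cyc l ℚ φ : ℤ_[l]ˣ) : ℤ_[l]) = (p : ℤ_[l])) ∧
        ∀ (A : Type) [CommGroup A] (ε : Gal F →* A),
          (ε.comp e.symm.toMonoidHom).transfer φ = ∏ i, ε (x i)) := by
    intro p
    by_cases hp : p.Prime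
    · obtain ⟨⟨𝔓, h𝔓, φ, hφ⟩, -⟩ := hFRE F p hp
      obtain ⟨r, x, k, 𝔔, h1, hc, h2⟩ := hTRF F H e hH p hp 𝔓 h𝔓 φ hφ
      refine ⟨r, x, k, 𝔔, φ, fun _ => ⟨h1, hc, fun l _ hpl => ?_, h2⟩⟩
      have h3 := hCYC F ℚ l p hp hpl 𝔓 h𝔓 1 φ (by rwa [pow_one])
      rwa [pow_one] at h3
    · exact ⟨0, Fin.elim0, Fin.elim0, Fin.elim0, 1, fun h => absurd h hp⟩
  choose r x k 𝔔 φ hkey using key
  refine ⟨r, x, k, 𝔔, ⟨fun p hp => (hkey p hp).1, ?_⟩, fun p hp => (hkey p hp).2.1⟩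
  intro l _ A _ _ _ _ ε c Bd hε
  obtain ⟨b, hb, hb'⟩ := hTRC F H e hH l A ε c Bd hε
  refine ⟨b, hb, fun p hp hpl u hu => ?_⟩
  obtain ⟨-, -, h2, h3⟩ := hkey p hp
  have h4 : cyc l ℚ (φ p) = u := Units.ext (by rw [h2 l hpl, hu])
  rw [← h3 A ε, ← h4]
  exact hb' (φ p)

theorem st_REG (hMIX : ST_MIX) (hIRR : ST_IRR) (hEND : ST_END) : ST_REG := by
  classical
  intro F _ _ S hS n w h M hM
  have key : M.Ample → M.Regular := by
    intro hA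
    obtain ⟨h1, h2⟩ := hIRR F S hS n w h M hA
    exact ⟨fun l _ => ⟨h1 l, fun u hu => hEND F S hS n w h M hA l u hu⟩, h2⟩
  rcases hM with h1 | ⟨p₀, hp₀, p₁, hp₁, hne, h0, h1⟩ | h3
  · exact key (Or.inl h1)
  · obtain ⟨a1, a2⟩ := hMIX F S hS n w h M p₀ hp₀ h0
    obtain ⟨b1, -⟩ := hMIX F S hS n w h M p₁ hp₁ h1
    refine ⟨fun l _ => ?_, a2⟩
    by_cases hl : l = p₀
    · exact b1 l (fun h => hne (hl.symm.trans h))
    · exact a1 l hl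
  · exact key (Or.inr h3)

end MU
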