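import Pool.Agent.Helper85.MU.Stmts

/-!
TRQ: equality of the traces for `l = 2` implies equality for all `l`.
-/

set_option autoImplicit false

open NumberField Topology

namespace MU

lemma trq_continuous {F : Type} [Field F] [NumberField F] {S : Finset ℕ} {n w : ℕ}
    {h : Fin n → ℕ} (M : Mot F S n w h) (l : ℕ) [Fact l.Prime] :
    Continuous fun g : Gal F => (rat (M.ρ l) g).trace := by
  have h1 : Continuous fun g : Gal F => ((M.ρ l g : Matrix.GeneralLinearGroup (Fin n) ℤ_[l]) :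
      Matrix (Fin n) (Fin n) ℤ_[l]) := Units.continuous_val.comp (M.continuous l)
  have hc : Continuous (algebraMap ℤ_[l] ℚ_[l]) := continuous_subtype_val
  have h2 : Continuous fun g : Gal F => rat (M.ρ l) g := h1.matrix_map hc
  exact h2.matrix_trace

/-- the trace is given by a coefficient of the characteristic polynomial -/
lemma trq_trace {n l : ℕ} [Fact l.Prime] {G : Type} [Group G]
    (r : G →* Matrix.GeneralLinearGroup (Fin n) ℤ_[l]) (g : G) (P : Polynomial ℤ)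
    (hP : ((r g : Matrix.GeneralLinearGroup (Fin n) ℤ_[l]) :
      Matrix (Fin n) (Fin n) ℤ_[l]).charpoly = P.map (Int.castRingHom ℤ_[l])) :
    (rat r g).trace = if n = 0 then 0 else -((P.coeff (n - 1) : ℤ) : ℚ_[l]) := by
  rcases Nat.eq_zero_or_pos n with hn | hn
  · subst hn
    simp [Matrix.trace]
  · have : Nonempty (Fin n) := ⟨⟨0, hn⟩⟩
    rw [if_neg hn.ne']
    have h1 : (rat r g).trace = algebraMap ℤ_[l] ℚ_[l]
        (((r g : Matrix.GeneralLinearGroup (Fin n) ℤ_[l]) :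
          Matrix (Fin n) (Fin n) ℤ_[l]).trace) := by
      simp only [Matrix.trace, Matrix.diag, map_sum]
      rfl
    rw [h1, Matrix.trace_eq_neg_charpoly_coeff, hP, Polynomial.coeff_map, Fintype.card_fin]
    simp

theorem st_TRQ (hFRB : ST_FRB) : ST_TRQ := by
  classical
  intro F _ _ S hS n w h M M' h2 l hl
  have hgal : IsGalois F (AlgebraicClosure F) := inferInstance
  -- the traces agree at the Frobenius elements
  have key : ∀ (p : ℕ) (𝔓 : Ideal (Zb F)) (k : ℕ) (σ : Gal F), p.Prime → p ∉ insert 2 (insert l S) →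
      Over p 𝔓 → 1 ≤ k → CongPow 𝔓 (p ^ k) σ →
      (rat (M.ρ l) σ⁻¹).trace = (rat (M'.ρ l) σ⁻¹).trace := by
    intro p 𝔓 k σ hp hpS h𝔓 hk hσ
    simp only [Finset.mem_insert, not_or] at hpS
    obtain ⟨P, -, hP⟩ := M.pure p hp hpS.2.2 𝔓 h𝔓 k σ hk hσ
    obtain ⟨P', -, hP'⟩ := M'.pure p hp hpS.2.2 𝔓 h𝔓 k σ hk hσ
    have e1 := trq_trace (M.ρ 2) σ⁻¹ P (hP 2 (fun h => hpS.1 h.symm))
    have e1' := trq_trace (M'.ρ 2) σ⁻¹ P' (hP' 2 (fun h => hpS.1 h.symm))
    have e2 := trq_trace (M.ρ l) σ⁻¹ P (hP l (fun h => hpS.2.1 h.symm))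
    have e2' := trq_trace (M'.ρ l) σ⁻¹ P' (hP' l (fun h => hpS.2.1 h.symm))
    rw [e2, e2']
    by_cases hn : n = 0
    · rw [if_pos hn, if_pos hn]
    · rw [if_neg hn] at e1 e1' ⊢
      rw [if_neg hn]
      have e3 := h2 σ⁻¹
      rw [e1, e1', neg_inj] at e3
      have e4 : P.coeff (n - 1) = P'.coeff (n - 1) := by exact_mod_cast e3
      rw [e4]
  intro g
  by_contra hne
  have hopen : IsOpen {x : Gal F | (rat (M.ρ l) (g * x)).trace ≠ (rat (M'.ρ l) (g * x)).trace} := by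
    have h3 : IsClosed {x : Gal F | (rat (M.ρ l) (g * x)).trace = (rat (M'.ρ l) (g * x)).trace} :=
      isClosed_eq ((trq_continuous M l).comp (continuous_const_mul g))
        ((trq_continuous M' l).comp (continuous_const_mul g))
    exact h3.isOpen_compl
  have hmem : {x : Gal F | (rat (M.ρ l) (g * x)).trace ≠ (rat (M'.ρ l) (g * x)).trace} ∈
      𝓝 (1 : Gal F) := by
    apply hopen.mem_nhds
    simpa using hne
  obtain ⟨E, hE, hEn, hEs⟩ :=
    (krullTopology_mem_nhds_one_iff_of_normal F (AlgebraicClosure F) _).1 hmem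
  have hEgal : IsGalois F E := { }
  have hUn : E.fixingSubgroup.Normal := (InfiniteGalois.normal_iff_isGalois E).2 hEgal
  obtain ⟨p, 𝔓, k, σ, hp, hpS, h𝔓, hk, hσ, hgσ⟩ := hFRB F E.fixingSubgroup hUn
    E.fixingSubgroup_isOpen (insert 2 (insert l S)) g⁻¹
  rw [inv_inv] at hgσ
  -- σ⁻¹ ∈ g * Y
  have h4 : g⁻¹ * σ⁻¹ ∈ E.fixingSubgroup := by
    have h5 := hUn.conj_mem _ (E.fixingSubgroup.inv_mem hgσ) g⁻¹
    have h6 : g⁻¹ * (g * σ)⁻¹ * g⁻¹⁻¹ = g⁻¹ * σ⁻¹ := by group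
    rwa [h6] at h5
  have h7 := hEs h4
  apply h7
  have h8 : g * (g⁻¹ * σ⁻¹) = σ⁻¹ := by group
  change (rat (M.ρ l) (g * (g⁻¹ * σ⁻¹))).trace = (rat (M'.ρ l) (g * (g⁻¹ * σ⁻¹))).trace
  rw [h8]
  exact key p 𝔓 k σ hp hpS h𝔓 hk hσ

end MU
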