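import Pool.Agent.Helper85.MU.DefsA
import Pool.Agent.Helper85.MU.FIN2
import Pool.Agent.Helper85.MU.TRI
import Pool.Agent.Helper85.MU.TRI2
import Pool.Agent.Helper85.MU.TRQ
import Pool.Agent.Helper22.MU.FRE
import Pool.Agent.Helper22.MU.INR
import Pool.Agent.Helper22.MU.END
import Pool.Agent.Helper84.MU.CYC
import Pool.Agent.Helper84.MU.IDX
import Pool.Agent.Helper3.MU.TRC
import Pool.Agent.Helper25.MU.TRF2
import Pool.Agent.Helper26.MU.PRO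
import Pool.Agent.Helper92.MU.BAL
import Pool.Agent.Helper92.MU.IRR
import Pool.Agent.Helper35.MU.FRB
import Pool.Agent.Helper40.MU.Her
import Pool.Agent.Helper40.MU.Fal
import Pool.Agent.Helper39.MU.BNS
import Pool.Agent.Helper43.MU.LAT
import Pool.Agent.Helper43.MU.INV
import Pool.Agent.Helper11.MU.LIN
import Pool.Agent.Helper77.MU.LARGE

/-!
# Assembly of the modules
-/

set_option autoImplicit false

open NumberField

namespace MU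

theorem all_TRC : ST_TRC := st_TRC st_INR st_CYC st_FRE
theorem all_TRI2 : ST_TRI2 := st_TRI2 st_IDX all_TRC (st_TRF2 st_FRE) st_FRE st_CYC
theorem all_TRI : ST_TRI := by
  intro F _ _
  obtain ⟨r, x, k, 𝔔, h, -⟩ := all_TRI2 F
  exact ⟨r, x, k, 𝔔, h⟩
theorem all_BAL : ST_BAL := st_BAL st_PRO
theorem all_FAL : ST_FAL := st_FAL st_FRB st_HER
theorem all_TRQ : ST_TRQ := st_TRQ st_FRB

theorem all_IRR : ST_IRR := st_IRR all_TRI all_BAL st_LIN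
theorem all_END : ST_END := st_END all_TRI all_BAL all_IRR st_INV
theorem all_REG (hMIX : ST_MIX) : ST_REG := st_REG hMIX all_IRR all_END
theorem all_FIN2 : ST_FIN2 := st_FIN2 all_FAL all_TRQ st_BNS st_LAT st_LARGE

/-- the theorem for the motives with maximally unipotent monodromy -/
theorem finiteness_unip (hMIX : ST_MIX) {F : Type} [Field F] [NumberField F] {S : Finset ℕ}
    (hS : ∀ p ∈ S, p.Prime) (n w : ℕ) (h : Fin n → ℕ) :
    ∃ N : ℕ, ∀ 𝒯 : Set (Mot F S n w h), (∀ M ∈ 𝒯, M.Unip) →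
      (∃ T : Finset (Mot F S n w h), (T : Set (Mot F S n w h)) ⊆ 𝒯 ∧ T.card ≤ N ∧
        ∀ M ∈ 𝒯, ∃ M' ∈ T, M.AdelicIso M') ∧
      ((∀ M ∈ 𝒯, ∀ M' ∈ 𝒯, M.AdelicIso M' → M.Isog M') →
        ∃ T : Finset (Mot F S n w h), (T : Set (Mot F S n w h)) ⊆ 𝒯 ∧ T.card ≤ N ∧
          ∀ M ∈ 𝒯, ∃ M' ∈ T, M.Iso M') := by
  obtain ⟨N, h1, h2⟩ := all_FIN2 F S hS n w h
  refine ⟨N, fun 𝒯 h𝒯 => ?_⟩
  have h3 : ∀ M ∈ 𝒯, M.Regular := by
    intro M hM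
    refine all_REG hMIX F S hS n w h M ?_
    rcases h𝒯 M hM with h4 | h4
    · exact Or.inl h4
    · exact Or.inr (Or.inl h4)
  exact ⟨h1 𝒯 h3, h2 𝒯 h3⟩

/-- the theorem for the motives of rank two over fields of odd degree -/
theorem finiteness_rank_two {F : Type} [Field F] [NumberField F]
    (hF : Odd (Module.finrank ℚ F)) {S : Finset ℕ} (hS : ∀ p ∈ S, p.Prime) (w : ℕ)
    (h : Fin 2 → ℕ) (hh : h 0 ≠ h 1) :
    ∃ N : ℕ, ∀ 𝒯 : Set (Mot F S 2 w h),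
      (∃ T : Finset (Mot F S 2 w h), (T : Set (Mot F S 2 w h)) ⊆ 𝒯 ∧ T.card ≤ N ∧
        ∀ M ∈ 𝒯, ∃ M' ∈ T, M.AdelicIso M') ∧
      ((∀ M ∈ 𝒯, ∀ M' ∈ 𝒯, M.AdelicIso M' → M.Isog M') →
        ∃ T : Finset (Mot F S 2 w h), (T : Set (Mot F S 2 w h)) ⊆ 𝒯 ∧ T.card ≤ N ∧
          ∀ M ∈ 𝒯, ∃ M' ∈ T, M.Iso M') := by
  obtain ⟨N, h1, h2⟩ := all_FIN2 F S hS 2 w h
  refine ⟨N, fun 𝒯 => ?_⟩
  have hinj : Function.Injective h := by
    intro i j hij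
    fin_cases i <;> fin_cases j
    · rfl
    · exact absurd hij hh
    · exact absurd hij.symm hh
    · rfl
  have h3 : ∀ M ∈ 𝒯, M.Regular := by
    intro M hM
    have hA : M.Ample := Or.inr ⟨rfl, hinj, hF⟩
    obtain ⟨a1, a2⟩ := all_IRR F S hS 2 w h M hA
    exact ⟨fun l _ => ⟨a1 l, fun u hu => all_END F S hS 2 w h M hA l u hu⟩, a2⟩
  exact ⟨h1 𝒯 h3, h2 𝒯 h3⟩

end MU
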