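import Pool.Agent.Helper43.MU.Sub
import Pool.Agent.Helper85.MU.ISO

/-!
LARGE: one class of lattices if the residual representation is irreducible.
-/

set_option autoImplicit false

open NumberField

namespace MU

/-- a nonzero matrix over `ℚ_l` is a scalar multiple of an integral matrix with an entry `1` -/
lemma large_primitive {n l : ℕ} [Fact l.Prime] (U : Matrix (Fin n) (Fin n) ℚ_[l]) (hU : U ≠ 0) :
    ∃ (c : ℚ_[l]) (X : Matrix (Fin n) (Fin n) ℤ_[l]), c ≠ 0 ∧
      U = c • X.map (algebraMap ℤ_[l] ℚ_[l]) ∧ ∃ i j, X i j = 1 := by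
  classical
  have hne : (Finset.univ : Finset (Fin n × Fin n)).Nonempty := by
    by_contra h
    apply hU
    ext i j
    exact absurd ⟨(i, j), Finset.mem_univ _⟩ h
  obtain ⟨⟨i₀, j₀⟩, -, hmax⟩ := Finset.exists_max_image Finset.univ
    (fun x : Fin n × Fin n => ‖U x.1 x.2‖) hne
  have hc : U i₀ j₀ ≠ 0 := by
    intro h0
    apply hU
    ext i j
    have h1 := hmax (i, j) (Finset.mem_univ _)
    simp only [h0, norm_zero] at h1
    exact norm_le_zero_iff.1 h1
  have hle : ∀ i j, ‖U i j / U i₀ j₀‖ ≤ 1 := by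
    intro i j
    rw [norm_div]
    exact div_le_one_of_le₀ (hmax (i, j) (Finset.mem_univ _)) (norm_nonneg _)
  refine ⟨U i₀ j₀, Matrix.of fun i j => (⟨U i j / U i₀ j₀, hle i j⟩ : ℤ_[l]), hc, ?_, i₀, j₀, ?_⟩
  · ext i j
    change U i j = U i₀ j₀ * (U i j / U i₀ j₀)
    field_simp
  · apply Subtype.ext
    change U i₀ j₀ / U i₀ j₀ = 1
    exact div_self hc

theorem st_LARGE : ST_LARGE := by
  classical
  intro G _ n l _ r s hr ⟨u, hu⟩
  rcases Nat.eq_zero_or_pos n with hn | hn
  · subst hn
    exact ⟨1, fun g => Subsingleton.elim _ _⟩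
  have : Nonempty (Fin n) := ⟨⟨0, hn⟩⟩
  have hu0 : (u : Matrix (Fin n) (Fin n) ℚ_[l]) ≠ 0 := by
    intro h0
    have h1 := u.isUnit
    rw [h0] at h1
    exact not_isUnit_zero h1
  obtain ⟨c, X, hc, hX, i₀, j₀, hij⟩ := large_primitive _ hu0
  have hint : ∀ g, X * (r g : Matrix (Fin n) (Fin n) ℤ_[l]) =
      (s g : Matrix (Fin n) (Fin n) ℤ_[l]) * X := by
    intro g
    apply map_padic_injective
    have h1 := hu g
    rw [hX, Matrix.smul_mul, Matrix.mul_smul] at h1
    have h2 := smul_right_injective _ hc h1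
    simp only [Matrix.map_mul]
    exact h2
  -- reduction modulo l
  set Y : Matrix (Fin n) (Fin n) (ZMod l) := X.map (PadicInt.toZMod (p := l)) with hY
  have hYint : ∀ g, Y * res r g = res s g * Y := by
    intro g
    rw [hY, res_apply, res_apply, ← Matrix.map_mul, hint g, Matrix.map_mul]
  have hker : LinearMap.ker Y.mulVecLin = ⊥ := by
    rcases irr_stable hr (LinearMap.ker Y.mulVecLin) (by
      intro g v hv
      rw [LinearMap.mem_ker, Matrix.mulVecLin_apply] at hv ⊢
      rw [Matrix.mulVec_mulVec, hYint, ← Matrix.mulVec_mulVec, hv, Matrix.mulVec_zero]) with h | h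
    · exact h
    · exfalso
      have h1 : Y.mulVec (Pi.single j₀ 1) = 0 := by
        have h2 : (Pi.single j₀ 1 : Fin n → ZMod l) ∈ LinearMap.ker Y.mulVecLin := by
          rw [h]; trivial
        exact h2
      have h3 := congrFun h1 i₀
      rw [Matrix.mulVec_single_one] at h3
      have h4 : Y i₀ j₀ = 1 := by
        rw [hY, Matrix.map_apply, hij, map_one]
      have h5 : Y i₀ j₀ = 0 := h3
      rw [h4] at h5
      exact one_ne_zero h5
  have hYunit : IsUnit Y := by
    rw [← Matrix.mulVec_injective_iff_isUnit]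
    exact LinearMap.ker_eq_bot.1 hker
  have hdet : IsUnit X.det := by
    rw [PadicInt.isUnit_iff]
    by_contra h1
    have h2 : ‖X.det‖ < 1 := lt_of_le_of_ne (PadicInt.norm_le_one _) h1
    have h3 : PadicInt.toZMod (p := l) X.det = 0 := by
      rw [← RingHom.mem_ker, PadicInt.ker_toZMod, IsLocalRing.mem_maximalIdeal,
        PadicInt.mem_nonunits]
      exact h2
    have h4 : Y.det = 0 := by
      rw [hY]
      have h5 := RingHom.map_det (PadicInt.toZMod (p := l)) X
      rw [h3] at h5
      exact h5.symm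
    rw [Matrix.isUnit_iff_isUnit_det, h4] at hYunit
    exact not_isUnit_zero hYunit
  exact ⟨Matrix.GeneralLinearGroup.mk'' X hdet, fun g => Units.ext (hint g)⟩

end MU
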