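import Pool.Agent.Helper85.MU.Final
import Pool.Agent.Helper28.MU.MIX

/-!
# Assembly: the theorem for motives with maximally unipotent monodromy
-/

set_option autoImplicit false

open NumberField

namespace MU

theorem all_MIX : ST_MIX := st_MIX all_TRI2 all_BAL st_LIN st_PRO

end MU
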