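import Mathlib

/-!
# Pure `ℤ`-motives over a number field as compatible systems of integral representations

`F` is a number field and `Ω` is its algebraic closure, embedded in `ℂ`. A pure `ℤ`-motive of rank
`n` over `F` is given by its Betti lattice `ℤ^n` and the actions `ρ l` of the absolute Galois group
of `F` on its `l`-adic completions. The function `h : Fin n → ℕ` lists the Hodge types (`r` occurs
`h^(r, w - r)` times).
-/

set_option autoImplicit false

open NumberField

namespace MU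

/-- the absolute Galois group of `F` -/
abbrev Gal (F : Type) [Field F] : Type := AlgebraicClosure F ≃ₐ[F] AlgebraicClosure F

/-- `𝔓` is a prime over `p` in the ring of all algebraic integers of `Ω` -/
def Over {Ω : Type} [Field Ω] (p : ℕ) (𝔓 : Ideal (integralClosure ℤ Ω)) : Prop :=
  𝔓.IsPrime ∧ (p : integralClosure ℤ Ω) ∈ 𝔓

/-- `σ x ≡ x ^ q` modulo `𝔓` for all algebraic integers `x`: for `q = 1` the automorphism `σ` is in
the inertia group at `𝔓`, for `q = p ^ k` with `𝔓` over `p` and `k ≥ 1` it is in the decomposition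
group and acts as the `k`-th power of the absolute Frobenius on the residue field. -/
def CongPow {Ω : Type} [Field Ω] (𝔓 : Ideal (integralClosure ℤ Ω)) (q : ℕ) (σ : Ω → Ω) : Prop :=
  ∀ x y : integralClosure ℤ Ω, (y : Ω) = σ (x : Ω) → y - x ^ q ∈ 𝔓

/-- the `l`-adic cyclotomic character of the automorphism group of `Ω / k` -/
noncomputable def cyc (l : ℕ) [Fact l.Prime] (k : Type) {Ω : Type} [Field k] [Field Ω]
    [Algebra k Ω] : (Ω ≃ₐ[k] Ω) →* ℤ_[l]ˣ :=
  (cyclotomicCharacter Ω l).comp (MulSemiringAction.toRingAut (Ω ≃ₐ[k] Ω) Ω)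

/-- the rational representation of an integral representation -/
noncomputable def rat {G : Type} [Group G] {n l : ℕ} [Fact l.Prime]
    (r : G →* Matrix.GeneralLinearGroup (Fin n) ℤ_[l]) : G →* Matrix (Fin n) (Fin n) ℚ_[l] :=
  ((algebraMap ℤ_[l] ℚ_[l]).mapMatrix (m := Fin n)).toMonoidHom.comp ((Units.coeHom _).comp r)

/-- the residual representation of an integral representation -/
noncomputable def res {G : Type} [Group G] {n l : ℕ} [Fact l.Prime]
    (r : G →* Matrix.GeneralLinearGroup (Fin n) ℤ_[l]) : G →* Matrix (Fin n) (Fin n) (ZMod l) :=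
  ((PadicInt.toZMod (p := l)).mapMatrix (m := Fin n)).toMonoidHom.comp ((Units.coeHom _).comp r)

/-- The columns of `B` are a basis of a subspace `U` of `K^n` stable under the representation `r`,
and `A` is the action on `U` in this basis. -/
def IsSub {G K : Type} [Group G] [Field K] {n m : ℕ} (r : G →* Matrix (Fin n) (Fin n) K)
    (B : Matrix (Fin n) (Fin m) K) (A : G → Matrix (Fin m) (Fin m) K) : Prop :=
  (∃ C : Matrix (Fin m) (Fin n) K, C * B = 1) ∧ ∀ g, r g * B = B * A g

/-- Pure `ℤ`-motives over `F` of rank `n`, weight `w` and Hodge types `h` with pure good reduction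
outside `S` and semistable reduction in `S`; the Betti lattice is `ℤ^n`. -/
structure Mot (F : Type) [Field F] [NumberField F] (S : Finset ℕ) (n w : ℕ) (h : Fin n → ℕ) where
  /-- the Galois action on the `l`-adic realization -/
  ρ : ∀ (l : ℕ) [Fact l.Prime], Gal F →* Matrix.GeneralLinearGroup (Fin n) ℤ_[l]
  continuous : ∀ (l : ℕ) [Fact l.Prime], Continuous (ρ l)
  /-- good reduction outside `S` -/
  good : ∀ (l : ℕ) [Fact l.Prime] (p : ℕ), p.Prime → p ∉ S → p ≠ l →
    ∀ 𝔓 : Ideal (integralClosure ℤ (AlgebraicClosure F)), Over p 𝔓 →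
    ∀ σ : Gal F, CongPow 𝔓 1 σ → ρ l σ = 1
  /-- semistable reduction in `S`: inertia acts unipotently -/
  semistable : ∀ (l : ℕ) [Fact l.Prime] (p : ℕ), p ∈ S → p ≠ l →
    ∀ 𝔓 : Ideal (integralClosure ℤ (AlgebraicClosure F)), Over p 𝔓 →
    ∀ σ : Gal F, CongPow 𝔓 1 σ → (rat (ρ l) σ - 1) ^ n = 0
  /-- purity outside `S`: the characteristic polynomial of a (power of a) geometric Frobenius is
  integral and independent of `l`, and its roots have absolute value `p ^ (k w / 2)`. -/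
  pure : ∀ p : ℕ, p.Prime → p ∉ S →
    ∀ 𝔓 : Ideal (integralClosure ℤ (AlgebraicClosure F)), Over p 𝔓 →
    ∀ (k : ℕ) (σ : Gal F), 1 ≤ k → CongPow 𝔓 (p ^ k) σ → ∃ P : Polynomial ℤ,
      (∀ z : ℂ, (P.map (Int.castRingHom ℂ)).IsRoot z → ‖z‖ ^ 2 = (p : ℝ) ^ (k * w)) ∧
      ∀ (l : ℕ) [Fact l.Prime], l ≠ p →
        ((ρ l σ⁻¹ : Matrix.GeneralLinearGroup (Fin n) ℤ_[l]) :
          Matrix (Fin n) (Fin n) ℤ_[l]).charpoly = P.map (Int.castRingHom ℤ_[l])
  /-- `p`-adic Hodge theory at the places over `l`: the determinant of a subrepresentation of the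
  `l`-adic realization (crystalline or semistable at these places) is on inertia a power
  of the cyclotomic character, and the exponent is given by Hodge types -/
  hodgeTate : ∀ (l : ℕ) [Fact l.Prime] (m : ℕ) (B : Matrix (Fin n) (Fin m) ℚ_[l])
    (A : Gal F → Matrix (Fin m) (Fin m) ℚ_[l]), IsSub (rat (ρ l)) B A →
    ∀ 𝔓 : Ideal (integralClosure ℤ (AlgebraicClosure F)), Over l 𝔓 →
    ∃ J : Finset (Fin n), J.card = m ∧ ∀ σ : Gal F, CongPow 𝔓 1 σ →
      (A σ).det * (((cyc l F σ : ℤ_[l]ˣ) : ℤ_[l]) : ℚ_[l]) ^ (∑ j ∈ J, h j) = 1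
  /-- the theory of Fontaine and Laffaille at the places over large `l`: the same holds for the
  subrepresentations of the reduction modulo `l` -/
  fontaineLaffaille : ∃ c : ℕ, ∀ (l : ℕ) [Fact l.Prime], c < l → ∀ (m : ℕ)
    (B : Matrix (Fin n) (Fin m) (ZMod l)) (A : Gal F → Matrix (Fin m) (Fin m) (ZMod l)),
    IsSub (res (ρ l)) B A →
    ∀ 𝔓 : Ideal (integralClosure ℤ (AlgebraicClosure F)), Over l 𝔓 →
    ∃ J : Finset (Fin n), J.card = m ∧ ∀ σ : Gal F, CongPow 𝔓 1 σ →
      (A σ).det * (PadicInt.toZMod ((cyc l F σ : ℤ_[l]ˣ) : ℤ_[l])) ^ (∑ j ∈ J, h j) = 1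
  /-- the complex conjugations at the real places exchange the Hodge types `(r, s)` and `(s, r)`;
  in particular they have trace `0` if there is no type `(r, r)` -/
  conj : (∀ j, 2 * h j ≠ w) → ∀ (l : ℕ) [Fact l.Prime] (c : Gal F), c ≠ 1 → c * c = 1 →
    (rat (ρ l) c).trace = 0

variable {F : Type} [Field F] [NumberField F] {S : Finset ℕ} {n w : ℕ} {h : Fin n → ℕ}

/-- Maximally unipotent monodromy at all places over `p₀`: for `l ≠ p₀` some inertia element `τ`
acts by a unipotent matrix with a single Jordan block (also modulo `l`, if `l` is large), and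
Frobenius elements `g` conjugate it to a power. For `l = p₀` the exponents of the determinants of
subrepresentations are those of the corresponding filtered `(φ, N)`-modules, and the
endomorphisms are scalars, as for these modules. -/
def Mot.MaxUnip (M : Mot F S n w h) (p₀ : ℕ) : Prop :=
  (∃ c : ℕ, ∀ (l : ℕ) [Fact l.Prime], l ≠ p₀ →
    ∀ 𝔓 : Ideal (integralClosure ℤ (AlgebraicClosure F)), Over p₀ 𝔓 →
    ∃ τ : Gal F, CongPow 𝔓 1 τ ∧ (rat (M.ρ l) τ - 1) ^ (n - 1) ≠ 0 ∧
      (c < l → (res (M.ρ l) τ - 1) ^ (n - 1) ≠ 0) ∧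
      ∀ (k : ℕ) (g : Gal F), 1 ≤ k → CongPow 𝔓 (p₀ ^ k) g →
        M.ρ l (g * τ * g⁻¹) = (M.ρ l τ) ^ (p₀ ^ k)) ∧
  ∀ [Fact p₀.Prime],
    (∀ (m : ℕ) (B : Matrix (Fin n) (Fin m) ℚ_[p₀]) (A : Gal F → Matrix (Fin m) (Fin m) ℚ_[p₀]),
      IsSub (rat (M.ρ p₀)) B A →
      ∀ 𝔓 : Ideal (integralClosure ℤ (AlgebraicClosure F)), Over p₀ 𝔓 →
      ∀ σ : Gal F, CongPow 𝔓 1 σ → (A σ).det ^ 2 *
        (((cyc p₀ F σ : ℤ_[p₀]ˣ) : ℤ_[p₀]) : ℚ_[p₀]) ^ ((m : ℤ) * (w + m - n)) = 1) ∧
    ∀ u : Matrix (Fin n) (Fin n) ℚ_[p₀],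
      (∀ g, rat (M.ρ p₀) g * u = u * rat (M.ρ p₀) g) → ∃ a : ℚ_[p₀], u = a • 1

/-- The motives of the theorem: those with maximally unipotent monodromy at all places over some
prime in `S`, and those of rank two with distinct Hodge types over fields of odd degree. -/
def Mot.Ample (M : Mot F S n w h) : Prop :=
  (∃ p₀ ∈ S, M.MaxUnip p₀) ∨ (n = 2 ∧ Function.Injective h ∧ Odd (Module.finrank ℚ F))

/-- The adelic realizations (with the lattices) are isomorphic. -/
def Mot.AdelicIso (M M' : Mot F S n w h) : Prop :=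
  ∀ (l : ℕ) [Fact l.Prime], ∃ u : Matrix.GeneralLinearGroup (Fin n) ℤ_[l],
    ∀ g : Gal F, u * M.ρ l g = M'.ρ l g * u

/-- `M` and `M'` are isogenous: an isomorphism `u` of the rational Betti realizations commutes with
the Galois action on all `l`-adic realizations. -/
def Mot.Isog (M M' : Mot F S n w h) : Prop :=
  ∃ u : Matrix.GeneralLinearGroup (Fin n) ℚ, ∀ (l : ℕ) [Fact l.Prime] (g : Gal F),
    (u : Matrix (Fin n) (Fin n) ℚ).map (algebraMap ℚ ℚ_[l]) * rat (M.ρ l) g =
      rat (M'.ρ l) g * (u : Matrix (Fin n) (Fin n) ℚ).map (algebraMap ℚ ℚ_[l])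

/-- `M` and `M'` are isomorphic: an isomorphism `u` of the Betti lattices commutes with the Galois
action on all `l`-adic realizations. -/
def Mot.Iso (M M' : Mot F S n w h) : Prop :=
  ∃ u : Matrix.GeneralLinearGroup (Fin n) ℤ, ∀ (l : ℕ) [Fact l.Prime] (g : Gal F),
    (u : Matrix (Fin n) (Fin n) ℤ).map (algebraMap ℤ ℤ_[l]) *
        (M.ρ l g : Matrix (Fin n) (Fin n) ℤ_[l]) =
      (M'.ρ l g : Matrix (Fin n) (Fin n) ℤ_[l]) *
        (u : Matrix (Fin n) (Fin n) ℤ).map (algebraMap ℤ ℤ_[l])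

end MU
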