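import Pool.Agent.Helper85.MU.Stmts2

/-!
# Motives with maximally unipotent monodromy: the class of the theorem
-/

set_option autoImplicit false

open NumberField

namespace MU

/-- The motives with maximally unipotent monodromy at all places over some prime `p₀` in `S`
(including the condition at `l = p₀`), or at some place over `p₀` and some place over `p₁`
for two different primes in `S`, the other places over `p₀` and `p₁` having the same
property or pure good reduction. -/
def Mot.Unip {F : Type} [Field F] [NumberField F] {S : Finset ℕ} {n w : ℕ} {h : Fin n → ℕ}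
    (M : Mot F S n w h) : Prop :=
  (∃ p₀ ∈ S, M.MaxUnip p₀) ∨ ∃ p₀ ∈ S, ∃ p₁ ∈ S, p₀ ≠ p₁ ∧ M.SomeUnip p₀ ∧ M.SomeUnip p₁

end MU
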