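import Pool.Agent.Helper85.MU.Stmts

/-!
# Second version: maximally unipotent monodromy at some of the places over `p₀`
At the other places over `p₀` the motive has pure good reduction.
-/

set_option autoImplicit false

open NumberField

namespace MU

variable {F : Type} [Field F] [NumberField F] {S : Finset ℕ} {n w : ℕ} {h : Fin n → ℕ}

/-- Maximally unipotent monodromy at the prime `𝔓` over `p₀`: for `l ≠ p₀` some inertia element `τ`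
acts by a unipotent matrix with a single Jordan block (also modulo `l`, if `l > c`), and Frobenius
elements `g` conjugate it to a power. -/
def Mot.MumAt (M : Mot F S n w h) (p₀ c : ℕ) (𝔓 : Ideal (Zb F)) : Prop :=
  ∀ (l : ℕ) [Fact l.Prime], l ≠ p₀ →
    ∃ τ : Gal F, CongPow 𝔓 1 τ ∧ (rat (M.ρ l) τ - 1) ^ (n - 1) ≠ 0 ∧
      (c < l → (res (M.ρ l) τ - 1) ^ (n - 1) ≠ 0) ∧
      ∀ (k : ℕ) (g : Gal F), 1 ≤ k → CongPow 𝔓 (p₀ ^ k) g →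
        M.ρ l (g * τ * g⁻¹) = (M.ρ l τ) ^ (p₀ ^ k)

/-- Pure good reduction at the prime `𝔓` over `p₀`. -/
def Mot.GoodAt (M : Mot F S n w h) (p₀ : ℕ) (𝔓 : Ideal (Zb F)) : Prop :=
  (∀ (l : ℕ) [Fact l.Prime], l ≠ p₀ → ∀ σ : Gal F, CongPow 𝔓 1 σ → M.ρ l σ = 1) ∧
  ∀ (k : ℕ) (σ : Gal F), 1 ≤ k → CongPow 𝔓 (p₀ ^ k) σ → ∃ P : Polynomial ℤ,
    (∀ z : ℂ, (P.map (Int.castRingHom ℂ)).IsRoot z → ‖z‖ ^ 2 = (p₀ : ℝ) ^ (k * w)) ∧
    ∀ (l : ℕ) [Fact l.Prime], l ≠ p₀ →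
      ((M.ρ l σ⁻¹ : Matrix.GeneralLinearGroup (Fin n) ℤ_[l]) :
        Matrix (Fin n) (Fin n) ℤ_[l]).charpoly = P.map (Int.castRingHom ℤ_[l])

/-- Every place over `p₀` has maximally unipotent monodromy or pure good reduction, and some place
has maximally unipotent monodromy. -/
def Mot.SomeUnip (M : Mot F S n w h) (p₀ : ℕ) : Prop :=
  ∃ c : ℕ, (∃ 𝔓 : Ideal (Zb F), Over p₀ 𝔓 ∧ M.MumAt p₀ c 𝔓) ∧
    ∀ 𝔓 : Ideal (Zb F), Over p₀ 𝔓 → M.MumAt p₀ c 𝔓 ∨ M.GoodAt p₀ 𝔓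

/-- The motives of the second version of the theorem. -/
def Mot.Ample2 (M : Mot F S n w h) : Prop :=
  (∃ p₀ ∈ S, M.MaxUnip p₀) ∨ (∃ p₀ ∈ S, ∃ p₁ ∈ S, p₀ ≠ p₁ ∧ M.SomeUnip p₀ ∧ M.SomeUnip p₁) ∨
    (n = 2 ∧ Function.Injective h ∧ Odd (Module.finrank ℚ F))

/-- The rational realizations are irreducible with scalar endomorphisms, almost all residual ones
are irreducible. -/
def Mot.Regular (M : Mot F S n w h) : Prop :=
  (∀ (l : ℕ) [Fact l.Prime], IsIrr (rat (M.ρ l)) ∧ ∀ u : Matrix (Fin n) (Fin n) ℚ_[l],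
    (∀ g, rat (M.ρ l) g * u = u * rat (M.ρ l) g) → ∃ a : ℚ_[l], u = a • 1) ∧
  ∃ c : ℕ, ∀ (l : ℕ) [Fact l.Prime], c < l → IsIrr (res (M.ρ l))

/-- All primes over `p` are conjugate to one of the `𝔔 i` under `Gal F`. -/
def Cover (F : Type) [Field F] [NumberField F] (p r : ℕ) (𝔔 : Fin r → Ideal (Zb F)) : Prop :=
  ∀ 𝔓 : Ideal (Zb F), Over p 𝔓 → ∃ (i : Fin r) (g : Gal F), ∀ x y : Zb F,
    (y : AlgebraicClosure F) = g (x : AlgebraicClosure F) → (x ∈ 𝔓 ↔ y ∈ 𝔔 i)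

/-- TRF2: the transfer at a Frobenius element, all places over `p` occur (from FRE). -/
def ST_TRF2 : Prop :=
  ∀ (F : Type) [Field F] [NumberField F] (H : Subgroup (GalQ F)) (e : Gal F ≃* H), IsH F H e →
    ∀ [H.FiniteIndex] (p : ℕ), p.Prime → ∀ 𝔓 : Ideal (Zb F), Over p 𝔓 → ∀ φ : GalQ F,
      CongPow 𝔓 p φ → ∃ (r : ℕ) (x : Fin r → Gal F) (k : Fin r → ℕ) (𝔔 : Fin r → Ideal (Zb F)),
        TrData F p r x k 𝔔 ∧ Cover F p r 𝔔 ∧ ∀ (A : Type) [CommGroup A] (ε : Gal F →* A),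
          (ε.comp e.symm.toMonoidHom).transfer φ = ∏ i, ε (x i)

/-- TRI2: the system of Frobenius elements (from IDX, TRC, TRF2, FRE, CYC). -/
def ST_TRI2 : Prop :=
  ∀ (F : Type) [Field F] [NumberField F], ∃ (r : ℕ → ℕ) (x : ∀ p, Fin (r p) → Gal F)
    (k : ∀ p, Fin (r p) → ℕ) (𝔔 : ∀ p, Fin (r p) → Ideal (Zb F)), IsTri F r x k 𝔔 ∧
      ∀ p : ℕ, p.Prime → Cover F p (r p) (𝔔 p)

/-- MIX: irreducibility (from TRI2, BAL, LIN, PRO). -/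
def ST_MIX : Prop :=
  ∀ (F : Type) [Field F] [NumberField F] (S : Finset ℕ), (∀ p ∈ S, p.Prime) →
    ∀ (n w : ℕ) (h : Fin n → ℕ) (M : Mot F S n w h), ∀ p₀ ∈ S, M.SomeUnip p₀ →
      (∀ (l : ℕ) [Fact l.Prime], l ≠ p₀ → IsIrr (rat (M.ρ l)) ∧
        ∀ u : Matrix (Fin n) (Fin n) ℚ_[l],
          (∀ g, rat (M.ρ l) g * u = u * rat (M.ρ l) g) → ∃ a : ℚ_[l], u = a • 1) ∧
      ∃ c : ℕ, ∀ (l : ℕ) [Fact l.Prime], c < l → IsIrr (res (M.ρ l))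

/-- REG: the motives of the theorem are regular (from MIX, IRR, END). -/
def ST_REG : Prop :=
  ∀ (F : Type) [Field F] [NumberField F] (S : Finset ℕ), (∀ p ∈ S, p.Prime) →
    ∀ (n w : ℕ) (h : Fin n → ℕ) (M : Mot F S n w h), M.Ample2 → M.Regular

/-- FIN2: the theorem, for regular motives. -/
def ST_FIN2 : Prop :=
  ∀ (F : Type) [Field F] [NumberField F] (S : Finset ℕ), (∀ p ∈ S, p.Prime) →
    ∀ (n w : ℕ) (h : Fin n → ℕ), ∃ N : ℕ,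
      (∀ 𝒯 : Set (Mot F S n w h), (∀ M ∈ 𝒯, M.Regular) →
        ∃ T : Finset (Mot F S n w h), (T : Set (Mot F S n w h)) ⊆ 𝒯 ∧ T.card ≤ N ∧
          ∀ M ∈ 𝒯, ∃ M' ∈ T, M.AdelicIso M') ∧
      ∀ 𝒯 : Set (Mot F S n w h), (∀ M ∈ 𝒯, M.Regular) →
        (∀ M ∈ 𝒯, ∀ M' ∈ 𝒯, M.AdelicIso M' → M.Isog M') →
        ∃ T : Finset (Mot F S n w h), (T : Set (Mot F S n w h)) ⊆ 𝒯 ∧ T.card ≤ N ∧
          ∀ M ∈ 𝒯, ∃ M' ∈ T, M.Iso M'

end MU
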